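import Pool.Agent.KMA.HPR

/-! RED: graphs with few colours, greedy colourings. -/

set_option autoImplicit false

namespace Pool.Agent.KMA

open Finset Pool.Agent.KMP
open scoped Classical

variable {V : Type} [Fintype V]

theorem red_aux {G : SimpleGraph V} {Δ : ℕ} (deg : ∀ x, (nb G x).card ≤ Δ) (S : Finset V) :
    ∃ c : V → Fin (Δ + 1), ∀ x ∈ S, ∀ y ∈ S, G.Adj x y → c x ≠ c y := by
  induction S using Finset.induction_on with
  | empty => exact ⟨fun _ => 0, by simp⟩
  | insert v S hv ih =>
    obtain ⟨c, hc⟩ := ih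
    have h1 : ((nb G v).image c).card < (Finset.univ : Finset (Fin (Δ + 1))).card := by
      rw [Finset.card_univ, Fintype.card_fin]
      exact lt_of_le_of_lt (Finset.card_image_le.trans (deg v)) (Nat.lt_succ_self _)
    obtain ⟨b, -, hb⟩ := Finset.exists_mem_notMem_of_card_lt_card h1
    have hb' : ∀ y, G.Adj v y → c y ≠ b := by
      intro y hy he
      exact hb (Finset.mem_image.mpr ⟨y, by simpa [nb] using hy, he⟩)
    refine ⟨Function.update c v b, ?_⟩
    intro x hx y hy hxy
    rw [Finset.mem_insert] at hx hy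
    by_cases hxv : x = v
    · subst hxv
      have hyx : y ≠ x := fun h => G.loopless.irrefl _ (h ▸ hxy)
      rw [Function.update_self, Function.update_of_ne hyx]
      exact (hb' y hxy).symm
    · have hxS : x ∈ S := hx.resolve_left hxv
      by_cases hyv : y = v
      · subst hyv
        rw [Function.update_self, Function.update_of_ne hxv]
        exact hb' x hxy.symm
      · rw [Function.update_of_ne hxv, Function.update_of_ne hyv]
        exact hc x hxS y (hy.resolve_left hyv) hxy

/-- Proof. Greedy: colour the vertices one by one with `Fin (Δ + 1)`. -/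
theorem col_zero {G : SimpleGraph V} {Δ : ℕ} (deg : ∀ x, (nb G x).card ≤ Δ) :
    ∃ c : V → Fin (Δ + 1), Proper G c := by
  obtain ⟨c, hc⟩ := red_aux deg Finset.univ
  exact ⟨c, fun x y h => hc x (Finset.mem_univ _) y (Finset.mem_univ _) h⟩

/-- Proof. Induction on `t ≤ s + 1`: a proper colouring with `n` colours, `n + t = Δ + 1`, gives by `eliminate`
(`z = Fin.last`) one which does not use the last colour, i.e. one with `n - 1` colours (if `n = 0` then `V` is
empty and there is nothing to do; in fact `n ≥ 1` because `Δ ≥ 24 s + 4`). -/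
theorem col_red {G : SimpleGraph V} {Δ s : ℕ} (deg : ∀ x, (nb G x).card ≤ Δ)
    (hcl : ∀ Q : Finset V, (∀ x ∈ Q, ∀ y ∈ Q, x ≠ y → G.Adj x y) → Q.card + 24 * s + 4 ≤ Δ) :
    ∃ n : ℕ, n + s = Δ ∧ ∃ c : V → Fin n, Proper G c := by
  have h0 : 24 * s + 4 ≤ Δ := by
    have := hcl ∅ (by simp)
    simpa using this
  have key : ∀ t : ℕ, t ≤ s + 1 → ∃ n : ℕ, n + t = Δ + 1 ∧ ∃ c : V → Fin n, Proper G c := by
    intro t
    induction t with
    | zero => exact fun _ => ⟨Δ + 1, rfl, col_zero deg⟩
    | succ t ih =>
      intro ht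
      obtain ⟨n, hn, c, hc⟩ := ih (by omega)
      obtain ⟨m, rfl⟩ : ∃ m, n = m + 1 := ⟨n - 1, by omega⟩
      obtain ⟨Y, -, hY, hYz⟩ := eliminate (Fin.last m) (s := t) deg
        (by rw [Fintype.card_fin]; exact hn)
        (fun Q hQ => by have := hcl Q hQ; omega) hc
      refine ⟨m, by omega, fun x => (Y x).castPred (hYz x), ?_⟩
      intro x y hxy he
      exact hY x y hxy (Fin.castPred_inj.mp he)
  obtain ⟨n, hn, c, hc⟩ := key (s + 1) le_rfl
  exact ⟨n, by omega, c, hc⟩

/-- Proof. Among the proper colourings `V → Fin n` take one with minimal `∑ x, (c x : ℕ)`. -/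
theorem col_greedy {G : SimpleGraph V} {n : ℕ} (h : ∃ c : V → Fin n, Proper G c) :
    ∃ c : V → Fin n, Proper G c ∧ ∀ x, ∀ i : Fin n, i < c x → ∃ y, G.Adj x y ∧ c y = i := by
  obtain ⟨c0, hc0⟩ := h
  obtain ⟨c, hc, hmin⟩ := Finset.exists_min_image
    ((Finset.univ : Finset (V → Fin n)).filter (fun c => Proper G c))
    (fun c => ∑ x, (c x : ℕ)) ⟨c0, by simp [hc0]⟩
  rw [Finset.mem_filter] at hc
  refine ⟨c, hc.2, fun x i hi => ?_⟩
  by_contra hcon
  push Not at hcon
  have hprop : Proper G (Function.update c x i) := by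
    intro u v huv
    by_cases hu : u = x
    · subst hu
      have hvu : v ≠ u := fun h => G.loopless.irrefl _ (h ▸ huv)
      rw [Function.update_self, Function.update_of_ne hvu]
      exact (hcon v huv).symm
    · by_cases hv : v = x
      · subst hv
        rw [Function.update_self, Function.update_of_ne hu]
        exact hcon u huv.symm
      · rw [Function.update_of_ne hu, Function.update_of_ne hv]
        exact hc.2 u v huv
  have h1 := hmin (Function.update c x i) (by simp [hprop])
  have h2 : ∑ y, ((Function.update c x i y : Fin n) : ℕ) < ∑ y, (c y : ℕ) := by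
    refine Finset.sum_lt_sum (fun y _ => ?_) ⟨x, Finset.mem_univ _, ?_⟩
    · by_cases hy : y = x
      · subst hy
        rw [Function.update_self]
        exact (Fin.lt_def.mp hi).le
      · rw [Function.update_of_ne hy]
    · rw [Function.update_self]
      exact Fin.lt_def.mp hi
  exact absurd h1 (not_le.mpr h2)

end Pool.Agent.KMA
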