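import Pool.Agent.KMA.ASM
import Pool.Agent.KMA.RED
import Pool.Agent.KMP.DEG

/-! ALL: all colourings are equivalent. -/

set_option autoImplicit false

namespace Pool.Agent.KMA

open Finset Pool.Agent.KMP
open scoped Classical

variable {V K : Type} [Fintype V] [Fintype K]

/-- `G` with only the edges inside `W` -/
def all_ind (G : SimpleGraph V) (W : Finset V) : SimpleGraph V where
  Adj x y := G.Adj x y ∧ x ∈ W ∧ y ∈ W
  symm := ⟨fun _ _ h => ⟨h.1.symm, h.2.2, h.2.1⟩⟩
  loopless := ⟨fun _ h => G.loopless.irrefl _ h.1⟩

theorem all_empty (G : SimpleGraph V) (h : ∀ x y, ¬ G.Adj x y) (c d : V → K) : KE G c d := by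
  have key : ∀ W : Finset V, KE G c (fun x => if x ∈ W then d x else c x) := by
    intro W
    induction W using Finset.induction_on with
    | empty =>
      have : (fun x => if x ∈ (∅ : Finset V) then d x else c x) = c := by
        funext x
        simp
      rw [this]
      exact Relation.ReflTransGen.refl
    | insert a W ha ih =>
      have hp : Proper G (fun x => if x ∈ W then d x else c x) := fun x y hxy => absurd hxy (h x y)
      have h1 := (recol hp a (d a) (fun x hx => absurd hx (h a x))).1
      have h2 : Function.update (fun x => if x ∈ W then d x else c x) a (d a) =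
          fun x => if x ∈ insert a W then d x else c x := by
        funext x
        by_cases hx : x = a
        · subst hx
          simp
        · simp [Function.update_of_ne hx, hx]
      rw [h2] at h1
      exact ih.trans h1
  have h1 := key univ
  have h2 : (fun x => if x ∈ (univ : Finset V) then d x else c x) = d := by
    funext x
    simp
  rwa [h2] at h1

theorem all_del (G : SimpleGraph V) (W : Finset V) (v : V) (hv : v ∉ W) :
    del (all_ind G (insert v W)) v = all_ind G W := by
  ext x y
  simp only [del, all_ind, Finset.mem_insert]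
  constructor
  · rintro ⟨⟨h1, h2, h3⟩, h4, h5⟩
    exact ⟨h1, h2.resolve_left h4, h3.resolve_left h5⟩
  · rintro ⟨h1, h2, h3⟩
    refine ⟨⟨h1, Or.inr h2, Or.inr h3⟩, ?_, ?_⟩
    · rintro rfl
      exact hv h2
    · rintro rfl
      exact hv h3

/-- Proof. Induction over the vertices with `KMP.deg_step` (as `KMP.all_equiv` in FIN: graphs `ind G W`). -/
theorem all_classical (G : SimpleGraph V) (Δ : ℕ) (hd : ∀ x, (nb G x).card ≤ Δ)
    (hk : Δ + 1 ≤ Fintype.card K) :
    ∀ c d : V → K, Proper G c → Proper G d → KE G c d := by
  have hnb : ∀ (W : Finset V) (x : V), (nb (all_ind G W) x).card ≤ Δ := by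
    intro W x
    refine le_trans (Finset.card_le_card ?_) (hd x)
    intro y hy
    simp only [nb, Finset.mem_filter, Finset.mem_univ, true_and] at hy ⊢
    exact hy.1
  have key : ∀ W : Finset V, ∀ c d : V → K, Proper (all_ind G W) c → Proper (all_ind G W) d →
      KE (all_ind G W) c d := by
    intro W
    induction W using Finset.induction_on with
    | empty =>
      intro c d _ _
      exact all_empty _ (fun x y h => by simpa using h.2.1) c d
    | insert v W hv ih =>
      have hdel := all_del G W v hv
      have ih' : ∀ c d : V → K, Proper (del (all_ind G (insert v W)) v) c →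
          Proper (del (all_ind G (insert v W)) v) d →
          KE (del (all_ind G (insert v W)) v) c d := by
        rw [hdel]
        exact ih
      exact deg_step _ v (le_trans (Nat.add_le_add_right (hnb _ v) 1) hk) ih'
  intro c d h1 h2
  have hG : all_ind G univ = G := by
    ext x y
    simp [all_ind]
  have := key univ
  rw [hG] at this
  exact this c d h1 h2

/-- Proof. `col_red` with `s' = 24 s + 4` (`24 s' + 4 = 576 s + 100`) gives a proper colouring with
`n = Δ - 24 s - 4` colours, `col_greedy` a greedy one `Z`; `n ≤ card K`, so there is an injection `e`; both colourings are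
equivalent to `e ∘ Z` by `assemble`; `ke_symm`. -/
theorem all_short (G : SimpleGraph V) (Δ s : ℕ) (hd : ∀ x, (nb G x).card ≤ Δ)
    (cK : Fintype.card K + s = Δ + 1)
    (hcl : ∀ Q : Finset V, (∀ x ∈ Q, ∀ y ∈ Q, x ≠ y → G.Adj x y) → Q.card + 576 * s + 100 ≤ Δ) :
    ∀ c d : V → K, Proper G c → Proper G d → KE G c d := by
  intro c d hc hdd
  obtain ⟨n, hn, hcol⟩ := col_red (G := G) (Δ := Δ) (s := 24 * s + 4) hd (fun Q hQ => by
    have := hcl Q hQ
    omega)
  obtain ⟨Z, hZ, hgr⟩ := col_greedy hcol
  have hcard : Fintype.card (Fin n) ≤ Fintype.card K := by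
    rw [Fintype.card_fin]
    omega
  obtain ⟨e⟩ := Function.Embedding.nonempty_of_card_le hcard
  have h1 := assemble n V K G Δ s hd cK (by omega) Z hZ hgr e e.injective c hc
  have h2 := assemble n V K G Δ s hd cK (by omega) Z hZ hgr e e.injective d hdd
  exact h1.trans (ke_symm h2)

end Pool.Agent.KMA
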