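import Pool.Agent.KMP.KEB

/-! TRA: Kempe changes on a part of the vertices and of the colours. -/

set_option autoImplicit false

namespace Pool.Agent.KMA

open Finset Pool.Agent.KMP
open scoped Classical

variable {V K : Type} [Fintype V] [Fintype K]

/-- Colour the vertices of `W` by `c`, the others keep the colour of `X`. -/
noncomputable def glue (W : Set V) (X : V → K) {z : K} (c : W → {a : K // a ≠ z}) : V → K :=
  fun x => if h : x ∈ W then (c ⟨x, h⟩ : K) else X x

omit [Fintype V] [Fintype K] in
private theorem glue_mem {W : Set V} {X : V → K} {z : K} {c : W → {a : K // a ≠ z}} {x : V}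
    (h : x ∈ W) : glue W X c x = (c ⟨x, h⟩ : K) := by
  simp [glue, h]

omit [Fintype V] [Fintype K] in
private theorem glue_not_mem {W : Set V} {X : V → K} {z : K} {c : W → {a : K // a ≠ z}} {x : V}
    (h : x ∉ W) : glue W X c x = X x := by
  simp [glue, h]

omit [Fintype K] in
private theorem sw_coe {z : K} (p q a : {a : K // a ≠ z}) :
    ((sw p q a : {a : K // a ≠ z}) : K) = sw (p : K) (q : K) (a : K) := by
  unfold sw
  by_cases h1 : a = p
  · simp [h1]
  · have h1' : (a : K) ≠ (p : K) := fun h => h1 (Subtype.ext h)
    by_cases h2 : a = q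
    · subst h2
      simp [h1, h1']
    · have h2' : (a : K) ≠ (q : K) := fun h => h2 (Subtype.ext h)
      simp [h1, h1', h2, h2']

/-- Proof. Induction along the chain; a `KStep` of `G.induce W` with colours `p, q ≠ z` and the set `C` is the
`KStep` of `G` with the image of `C`: the vertices outside `W` have the colour `z` (in `X`), so they are not
neighbours of colour `p` or `q`. -/
theorem glue_ke {G : SimpleGraph V} (W : Set V) (X : V → K) {z : K} (hX : ∀ x, x ∉ W → X x = z)
    {c d : W → {a : K // a ≠ z}} (h : KE (G.induce W) c d) :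
    KE G (glue W X c) (glue W X d) := by
  unfold KE at h ⊢
  refine Relation.ReflTransGen.lift (p := KStep G) (glue W X) (fun a b hab => ?_) _ _ h
  obtain ⟨p, q, C, h1, h2, h3⟩ := hab
  refine ⟨(p : K), (q : K), Subtype.val '' C, ?_, ?_, ?_⟩
  · rintro u ⟨⟨x, hx⟩, hu, rfl⟩
    rw [glue_mem hx]
    rcases h1 _ hu with h | h
    · left; rw [h]
    · right; rw [h]
  · rintro u ⟨⟨x, hx⟩, hu, rfl⟩ y hadj hy
    by_cases hyW : y ∈ W
    · rw [glue_mem hyW] at hy
      refine ⟨⟨y, hyW⟩, h2 _ hu ⟨y, hyW⟩ ?_ ?_, rfl⟩
      · exact hadj
      · rcases hy with hy | hy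
        · left; exact Subtype.ext hy
        · right; exact Subtype.ext hy
    · rw [glue_not_mem hyW, hX y hyW] at hy
      rcases hy with hy | hy
      · exact absurd hy.symm p.2
      · exact absurd hy.symm q.2
  · intro u
    by_cases hu : u ∈ W
    · rw [glue_mem hu, glue_mem hu, h3 ⟨u, hu⟩]
      by_cases hC : (⟨u, hu⟩ : W) ∈ C
      · have hC' : u ∈ Subtype.val '' C := ⟨_, hC, rfl⟩
        rw [if_pos hC, if_pos hC', sw_coe]
      · have hC' : u ∉ Subtype.val '' C := by
          rintro ⟨⟨v, hv⟩, hvC, rfl⟩
          exact hC hvC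
        rw [if_neg hC, if_neg hC']
    · have hC' : u ∉ Subtype.val '' C := by
        rintro ⟨⟨v, hv⟩, hvC, rfl⟩
        exact hu hv
      rw [if_neg hC', glue_not_mem hu, glue_not_mem hu]

/-- Recolour the vertices of a stable set `J` by `z`, if `z` is not used elsewhere.
Proof. Induction over the vertices of `J` (`KMP.recol`). -/
theorem recol_set {G : SimpleGraph V} {X : V → K} (hX : Proper G X) (z : K) (hz : ∀ x, X x ≠ z)
    (J : Set V) (hJ : ∀ x ∈ J, ∀ y ∈ J, ¬ G.Adj x y) :
    KE G X (fun x => if x ∈ J then z else X x) ∧ Proper G (fun x => if x ∈ J then z else X x) := by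
  have key : ∀ S : Finset V, (∀ x ∈ S, x ∈ J) →
      KE G X (fun x => if x ∈ S then z else X x) ∧
        Proper G (fun x => if x ∈ S then z else X x) := by
    intro S
    induction S using Finset.induction_on with
    | empty =>
      intro _
      simp only [Finset.notMem_empty, if_false]
      exact ⟨Relation.ReflTransGen.refl, hX⟩
    | insert u S hu ih =>
      intro hS
      obtain ⟨h1, h2⟩ := ih (fun x hx => hS x (Finset.mem_insert_of_mem hx))
      have hfun : (fun x => if x ∈ insert u S then z else X x) =
          Function.update (fun x => if x ∈ S then z else X x) u z := by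
        funext x
        by_cases hx : x = u
        · subst hx
          simp
        · simp [Finset.mem_insert, hx]
      have h3 := recol h2 u z (by
        intro x hadj
        by_cases hx : x ∈ S
        · exact absurd hadj (hJ u (hS u (Finset.mem_insert_self _ _)) x
            (hS x (Finset.mem_insert_of_mem hx)))
        · simp only [if_neg hx]
          exact hz x)
      rw [hfun]
      exact ⟨h1.trans h3.1, h3.2⟩
  have h := key (univ.filter (fun x => x ∈ J)) (by simp)
  simpa using h

end Pool.Agent.KMA
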