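import Pool.Agent.KMA.HPR
import Pool.Agent.KMA.TRA

/-! ASM: the classes of a greedy colouring are installed one by one. -/

set_option autoImplicit false

namespace Pool.Agent.KMA

open Finset Pool.Agent.KMP
open scoped Classical

/-- A clique has at most as many elements as there are colours. -/
theorem asm_clique {V : Type} [Fintype V] {n : ℕ} {G : SimpleGraph V} {Z : V → Fin n}
    (hZ : Proper G Z) (Q : Finset V) (hQ : ∀ x ∈ Q, ∀ y ∈ Q, x ≠ y → G.Adj x y) :
    Q.card ≤ n := by
  have h1 : (Q.image Z).card = Q.card := by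
    apply Finset.card_image_of_injOn
    intro x hx y hy hxy
    by_contra hne
    exact hZ x y (hQ x hx y hy hne) hxy
  have h2 : (Q.image Z).card ≤ (univ : Finset (Fin n)).card :=
    Finset.card_le_card (Finset.subset_univ _)
  rw [Finset.card_univ, Fintype.card_fin] at h2
  omega

theorem asm_deg {V : Type} [Fintype V] {n Δ : ℕ} {G : SimpleGraph V} {Z : V → Fin (n + 1)}
    (deg : ∀ x, (nb G x).card ≤ Δ)
    (hg : ∀ x, ∀ i : Fin (n + 1), i < Z x → ∃ y, G.Adj x y ∧ Z y = i)
    (x : {x : V | Z x ≠ 0}) : (nb (G.induce {x : V | Z x ≠ 0}) x).card ≤ Δ - 1 := by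
  have hx : Z x ≠ 0 := x.2
  obtain ⟨y, hxy, hy⟩ := hg x 0 (Fin.pos_of_ne_zero hx)
  have h1 : ((nb (G.induce {x : V | Z x ≠ 0}) x).image (fun w : {x : V | Z x ≠ 0} => (w : V))).card =
      (nb (G.induce {x : V | Z x ≠ 0}) x).card := by
    apply Finset.card_image_of_injective
    exact Subtype.val_injective
  have h2 : (nb (G.induce {x : V | Z x ≠ 0}) x).image (fun w : {x : V | Z x ≠ 0} => (w : V)) ⊆
      (nb G (x : V)).erase y := by
    intro w hw
    rw [Finset.mem_image] at hw
    obtain ⟨w', hw', rfl⟩ := hw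
    simp only [nb, Finset.mem_filter, Finset.mem_univ, true_and, SimpleGraph.comap_adj,
      Function.Embedding.subtype_apply] at hw'
    rw [Finset.mem_erase]
    refine ⟨?_, ?_⟩
    · intro h
      exact w'.2 (by rw [h]; exact hy)
    · simp only [nb, Finset.mem_filter, Finset.mem_univ, true_and]
      exact hw'
  have h3 : y ∈ nb G (x : V) := by
    simp only [nb, Finset.mem_filter, Finset.mem_univ, true_and]
    exact hxy
  have h4 := Finset.card_le_card h2
  rw [Finset.card_erase_of_mem h3] at h4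
  have := deg (x : V)
  omega

/-- Proof. Induction on `n`, all other data generalised. `n = 0`: `V` is empty. Step `n + 1`: `z = e 0`. A clique `Q` of `G`
has at most `n + 1` elements (colouring `Z`), so `eliminate` gives `X ~ Y` with no colour `z`; `recol_set` with `J = {Z = 0}`
gives `X ~ Y'`. Let `W` be the complement of `J`, `G' = G.induce W`, `K' = {a // a ≠ z}`: each vertex of `W` has a neighbour
in `J` (greedy), so `G'` has degrees at most `Δ - 1`; `card K' + s = Δ`. Let `c` be the restriction of `Y'`, `Z' = Z - 1`,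
`e' i = e (i + 1)`. The induction gives `KE G' c (e' ∘ Z')` and `glue_ke` gives `Y' = glue c ~ glue (e' ∘ Z') = e ∘ Z`. -/
theorem assemble (n : ℕ) : ∀ (V K : Type) [Fintype V] [Fintype K] (G : SimpleGraph V) (Δ s : ℕ),
    (∀ x, (nb G x).card ≤ Δ) → Fintype.card K + s = Δ + 1 → n + 24 * s + 4 ≤ Δ →
    ∀ (Z : V → Fin n), Proper G Z → (∀ x, ∀ i : Fin n, i < Z x → ∃ y, G.Adj x y ∧ Z y = i) →
    ∀ (e : Fin n → K), Function.Injective e → ∀ X : V → K, Proper G X →
    KE G X (fun x => e (Z x)) := by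
  induction n with
  | zero =>
    intro V K _ _ G Δ s _ _ _ Z _ _ e _ X _
    have : X = fun x => e (Z x) := by
      funext x
      exact (Z x).elim0
    rw [← this]
    exact Relation.ReflTransGen.refl
  | succ n ih =>
    intro V K _ _ G Δ s deg cK hn Z hZ hg e he X hX
    obtain ⟨z, hzdef⟩ : ∃ z, z = e 0 := ⟨_, rfl⟩
    have hcl : ∀ Q : Finset V, (∀ x ∈ Q, ∀ y ∈ Q, x ≠ y → G.Adj x y) →
        Q.card + 24 * s + 4 ≤ Δ := by
      intro Q hQ
      have := asm_clique hZ Q hQ
      omega
    obtain ⟨Y, hXY, hYp, hYz⟩ := eliminate z deg cK hcl hX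
    have hJ : ∀ x ∈ {x : V | Z x = 0}, ∀ y ∈ {x : V | Z x = 0}, ¬ G.Adj x y := by
      intro x hx y hy hxy
      have hx' : Z x = 0 := hx
      have hy' : Z y = 0 := hy
      exact hZ x y hxy (hx'.trans hy'.symm)
    obtain ⟨Y', hYY', hYp', hW0, hJ0⟩ : ∃ Y' : V → K, KE G Y Y' ∧ Proper G Y' ∧
        (∀ x, Z x = 0 → Y' x = z) ∧ (∀ x, Z x ≠ 0 → Y' x = Y x) := by
      obtain ⟨h1, h2⟩ := recol_set hYp z hYz {x : V | Z x = 0} hJ
      exact ⟨_, h1, h2, fun x hx => if_pos hx, fun x hx => if_neg hx⟩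
    have hY'W : ∀ x, x ∉ {x : V | Z x ≠ 0} → Y' x = z := by
      intro x hx
      apply hW0
      by_contra h
      exact hx h
    have hY'J : ∀ x, x ∈ {x : V | Z x ≠ 0} → Y' x = Y x := fun x hx => hJ0 x hx
    have hcard : Fintype.card {a : K // a ≠ z} + s = (Δ - 1) + 1 := by
      have h1 : Fintype.card {a : K // a ≠ z} = Fintype.card K - 1 := by
        rw [Fintype.card_subtype_compl, Fintype.card_subtype_eq]
      have h2 : 0 < Fintype.card K := Fintype.card_pos_iff.2 ⟨z⟩
      omega
    have hn' : n + 24 * s + 4 ≤ Δ - 1 := by omega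
    have hZ0 : ∀ x : {x : V | Z x ≠ 0}, Z x ≠ 0 := fun x => x.2
    have hZ' : Proper (G.induce {x : V | Z x ≠ 0})
        (fun x : {x : V | Z x ≠ 0} => (Z x).pred (hZ0 x)) := by
      intro x y hxy h
      have h2 : Z x = Z y := Fin.pred_inj.1 h
      exact hZ x y hxy h2
    have hg' : ∀ x : {x : V | Z x ≠ 0}, ∀ i : Fin n, i < (Z x).pred (hZ0 x) →
        ∃ y, (G.induce {x : V | Z x ≠ 0}).Adj x y ∧ (Z y).pred (hZ0 y) = i := by
      intro x i hi
      have h1 : i.succ < Z x := by
        rw [Fin.lt_def] at hi ⊢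
        rw [Fin.val_pred] at hi
        rw [Fin.val_succ]
        omega
      obtain ⟨y, hxy, hy⟩ := hg x i.succ h1
      have hy0 : Z y ≠ 0 := by
        rw [hy]
        exact Fin.succ_ne_zero i
      refine ⟨⟨y, hy0⟩, hxy, ?_⟩
      have : Z y = i.succ := hy
      simp only [this, Fin.pred_succ]
    have he0 : ∀ i : Fin n, e i.succ ≠ z := by
      intro i h
      rw [hzdef] at h
      exact Fin.succ_ne_zero i (he h)
    have he' : Function.Injective (fun i : Fin n => (⟨e i.succ, he0 i⟩ : {a : K // a ≠ z})) := by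
      intro i j h
      have h2 : e i.succ = e j.succ := congrArg Subtype.val h
      exact Fin.succ_injective n (he h2)
    have hcp : Proper (G.induce {x : V | Z x ≠ 0})
        (fun x : {x : V | Z x ≠ 0} => (⟨Y x, hYz x⟩ : {a : K // a ≠ z})) := by
      intro x y hxy h
      exact hYp x y hxy (congrArg Subtype.val h)
    have hih := ih {x : V | Z x ≠ 0} {a : K // a ≠ z} (G.induce {x : V | Z x ≠ 0}) (Δ - 1) s
      (asm_deg deg hg) hcard hn' _ hZ' hg' _ he' _ hcp
    have hgl := glue_ke {x : V | Z x ≠ 0} Y' hY'W hih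
    have e1 : glue {x : V | Z x ≠ 0} Y'
        (fun x : {x : V | Z x ≠ 0} => (⟨Y x, hYz x⟩ : {a : K // a ≠ z})) = Y' := by
      funext x
      unfold glue
      split_ifs with h
      · exact (hY'J x h).symm
      · rfl
    have e2 : glue {x : V | Z x ≠ 0} Y'
        (fun x : {x : V | Z x ≠ 0} =>
          (⟨e ((Z x).pred (hZ0 x)).succ, he0 _⟩ : {a : K // a ≠ z})) = fun x => e (Z x) := by
      funext x
      unfold glue
      split_ifs with h
      · simp only [Fin.succ_pred]
      · rw [hY'W x h, hzdef]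
        have hx' : Z x = 0 := by
          by_contra h'
          exact h h'
        rw [hx']
    rw [e1] at hgl
    rw [e2] at hgl
    exact Relation.ReflTransGen.trans (Relation.ReflTransGen.trans hXY hYY') hgl

end Pool.Agent.KMA
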