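import Mathlib

/-! CHB: an abstract bound on the number of non-trivial chains. -/

set_option autoImplicit false

namespace Pool.Agent.KMA

open Finset
open scoped Classical

variable {V : Type}

/-- the statement for closed subsets -/
theorem chb_aux (H : Finset V) (A : V → Finset V) (hne : ∀ h ∈ H, (A h).Nonempty)
    (hcl : ∀ T ⊆ H, (∀ h ∈ T, ∀ h' ∈ H, (∃ u, u ∈ A h ∧ u ∈ A h') → h' ∈ T) →
      T.card ≤ (T.biUnion A).card) : ∀ n : ℕ, ∀ T : Finset V, T.card = n → T ⊆ H →
      (∀ h ∈ T, ∀ h' ∈ H, (∃ u, u ∈ A h ∧ u ∈ A h') → h' ∈ T) →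
    (T.filter (fun h => ¬ ((A h).card = 1 ∧
      ∀ h' ∈ H, (∃ u, u ∈ A h ∧ u ∈ A h') → h' = h))).card + 2 * T.card ≤
      2 * ∑ h ∈ T, (A h).card := by
  intro n
  induction n using Nat.strong_induction_on with
  | _ n ih =>
    intro T hTn hTH hTcl
    rcases T.eq_empty_or_nonempty with rfl | ⟨h0, hh0⟩
    · simp
    -- the family of admissible subsets
    set P : Finset V → Prop := fun S => h0 ∈ S ∧
      (S.biUnion A).card + S.card ≤ ∑ h ∈ S, (A h).card + 1 with hP
    have hex : ∃ S ∈ T.powerset.filter P, ∀ S' ∈ T.powerset.filter P, S'.card ≤ S.card := by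
      apply Finset.exists_max_image
      refine ⟨{h0}, ?_⟩
      rw [Finset.mem_filter, Finset.mem_powerset]
      refine ⟨by simpa using hh0, by simp, ?_⟩
      simp
    obtain ⟨S, hS, hmax⟩ := hex
    rw [Finset.mem_filter, Finset.mem_powerset] at hS
    obtain ⟨hST, h0S, hSc⟩ := hS
    -- `S` is closed
    have hScl : ∀ h ∈ S, ∀ h' ∈ H, (∃ u, u ∈ A h ∧ u ∈ A h') → h' ∈ S := by
      intro g hg h' hh' hu
      by_contra hn
      have hT' : h' ∈ T := hTcl g (hST hg) h' hh' hu
      have hins : insert h' S ∈ T.powerset.filter P := by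
        rw [Finset.mem_filter, Finset.mem_powerset]
        refine ⟨Finset.insert_subset hT' hST, Finset.mem_insert_of_mem h0S, ?_⟩
        rw [Finset.biUnion_insert, Finset.card_insert_of_notMem hn, Finset.sum_insert hn]
        obtain ⟨u, hu1, hu2⟩ := hu
        have hint : 1 ≤ (A h' ∩ S.biUnion A).card := by
          apply Finset.card_pos.mpr
          exact ⟨u, Finset.mem_inter.mpr ⟨hu2, Finset.mem_biUnion.mpr ⟨g, hg, hu1⟩⟩⟩
        have := Finset.card_union_add_card_inter (A h') (S.biUnion A)
        omega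
      have := hmax _ hins
      rw [Finset.card_insert_of_notMem hn] at this
      omega
    have hS2 : 2 * S.card ≤ ∑ h ∈ S, (A h).card + 1 := by
      have := hcl S (hST.trans hTH) hScl
      omega
    -- the bad elements of `S`
    have hbadS : (S.filter (fun h => ¬ ((A h).card = 1 ∧
        ∀ h' ∈ H, (∃ u, u ∈ A h ∧ u ∈ A h') → h' = h))).card + 2 * S.card ≤
        2 * ∑ h ∈ S, (A h).card := by
      by_cases h2 : 2 ≤ S.card
      · have := Finset.card_filter_le S (fun h => ¬ ((A h).card = 1 ∧
          ∀ h' ∈ H, (∃ u, u ∈ A h ∧ u ∈ A h') → h' = h))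
        omega
      · have h1 : S.card = 1 := by
          have : 0 < S.card := Finset.card_pos.mpr ⟨h0, h0S⟩
          omega
        obtain ⟨x, hx⟩ := Finset.card_eq_one.mp h1
        subst hx
        have hxx : h0 = x := by simpa using h0S
        subst hxx
        rw [Finset.filter_singleton]
        have hpos : 1 ≤ (A h0).card := Finset.card_pos.mpr (hne h0 (hTH hh0))
        split_ifs with hb
        · simp only [Finset.card_empty, Finset.card_singleton, Finset.sum_singleton]
          omega
        · simp only [Finset.card_singleton, Finset.sum_singleton]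
          have : (A h0).card ≠ 1 := by
            intro hA
            apply hb
            refine ⟨hA, fun h' hh' hu => ?_⟩
            have := hScl h0 (by simp) h' hh' hu
            simpa using this
          omega
    -- the rest
    have hrest := ih (T \ S).card (by
      rw [← hTn]
      exact Finset.card_lt_card ⟨Finset.sdiff_subset, fun hc => by
        have := hc hh0
        rw [Finset.mem_sdiff] at this
        exact this.2 h0S⟩) (T \ S) rfl (Finset.sdiff_subset.trans hTH) (by
      intro g hg h' hh' hu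
      rw [Finset.mem_sdiff] at hg ⊢
      refine ⟨hTcl g hg.1 h' hh' hu, fun hc => hg.2 ?_⟩
      obtain ⟨u, hu1, hu2⟩ := hu
      exact hScl h' hc g (hTH hg.1) ⟨u, hu2, hu1⟩)
    have e1 : (T.filter (fun h => ¬ ((A h).card = 1 ∧
        ∀ h' ∈ H, (∃ u, u ∈ A h ∧ u ∈ A h') → h' = h))).card =
        (S.filter (fun h => ¬ ((A h).card = 1 ∧
          ∀ h' ∈ H, (∃ u, u ∈ A h ∧ u ∈ A h') → h' = h))).card +
        ((T \ S).filter (fun h => ¬ ((A h).card = 1 ∧
          ∀ h' ∈ H, (∃ u, u ∈ A h ∧ u ∈ A h') → h' = h))).card := by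
      rw [← Finset.card_union_of_disjoint, ← Finset.filter_union, Finset.union_sdiff_of_subset hST]
      exact Finset.disjoint_filter_filter (Finset.disjoint_sdiff)
    have e2 : T.card = S.card + (T \ S).card := by
      rw [← Finset.card_union_of_disjoint Finset.disjoint_sdiff, Finset.union_sdiff_of_subset hST]
    have e3 : ∑ h ∈ T, (A h).card = ∑ h ∈ S, (A h).card + ∑ h ∈ T \ S, (A h).card := by
      rw [← Finset.sum_union Finset.disjoint_sdiff, Finset.union_sdiff_of_subset hST]
    rw [e1, e2, e3]
    omega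

/-- Call `T ⊆ H` closed if it satisfies the hypothesis of `hcl`, and `h` bad if it is counted on the left side.
Proof: by strong induction on `T.card` the statement holds with `H` replaced by closed `T ⊆ H` (badness still
refers to `H`). -/
theorem chain_bound (H : Finset V) (A : V → Finset V) (hne : ∀ h ∈ H, (A h).Nonempty)
    (hcl : ∀ T ⊆ H, (∀ h ∈ T, ∀ h' ∈ H, (∃ u, u ∈ A h ∧ u ∈ A h') → h' ∈ T) →
      T.card ≤ (T.biUnion A).card) :
    (H.filter (fun h => ¬ ((A h).card = 1 ∧
      ∀ h' ∈ H, (∃ u, u ∈ A h ∧ u ∈ A h') → h' = h))).card + 2 * H.card ≤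
      2 * ∑ h ∈ H, (A h).card :=
  chb_aux H A hne hcl H.card H rfl (Finset.Subset.refl _) (fun _ _ _ hh' _ => hh')

end Pool.Agent.KMA
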