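import Pool.Agent.KMA.Defs
import Pool.Agent.KMP.KEB

/-! HRIG: consequences of the minimality of the number of holes. -/

set_option autoImplicit false

namespace Pool.Agent.KMA

open Finset Pool.Agent.KMP
open scoped Classical

variable {V K : Type} [Fintype V] [Fintype K]

theorem hrig_mem_holes {z : K} {c : V → K} {x : V} : x ∈ holes z c ↔ c x = z := by
  simp [holes]

/-- Proof. A hole with a free colour `b` could be recoloured (`KMP.recol`): fewer holes. -/
theorem hole_rig {G : SimpleGraph V} {z : K} {Δ s η : ℕ} {R : Finset V} {X : V → K}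
    (C : Ctx G z Δ s η R X) {Y : V → K} (hY : KE G X Y) (hη : (holes z Y).card = η) :
    holes z Y ⊆ rig G z Y := by
  intro h hh
  have hhz : Y h = z := hrig_mem_holes.mp hh
  rw [rig, Finset.mem_filter]
  refine ⟨Finset.mem_univ _, ?_⟩
  by_contra hne
  obtain ⟨b, hb⟩ := Finset.nonempty_iff_ne_empty.mpr hne
  rw [free, Finset.mem_filter] at hb
  obtain ⟨-, hbz, -, hbn⟩ := hb
  have hP : Proper G Y := ke_proper hY C.prop
  have h1 := (recol hP h b hbn).1
  have h2 := C.minH _ (hY.trans h1)
  have h3 : holes z (Function.update Y h b) ⊆ (holes z Y).erase h := by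
    intro x hx
    rw [hrig_mem_holes] at hx
    by_cases hxh : x = h
    · subst hxh
      rw [Function.update_self] at hx
      exact absurd hx hbz
    · rw [Function.update_of_ne hxh] at hx
      exact Finset.mem_erase.mpr ⟨hxh, hrig_mem_holes.mpr hx⟩
  have h4 := Finset.card_le_card h3
  have h5 := Finset.card_erase_lt_of_mem hh
  omega

/-- Proof. Otherwise recolour `u` with a free colour `b` (`b ≠ Y u`), now `h` has no neighbour of
colour `Y u` (the only one was `u`), so recolour `h` with `Y u` (`Y u ≠ z` as `Y` is proper):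
fewer holes. -/
theorem uniq_rig {G : SimpleGraph V} {z : K} {Δ s η : ℕ} {R : Finset V} {X : V → K}
    (C : Ctx G z Δ s η R X) {Y : V → K} (hY : KE G X Y) (hη : (holes z Y).card = η)
    {h u : V} (hh : Y h = z) (hu : G.Adj h u) (h1 : cn G Y h (Y u) = {u}) :
    u ∈ rig G z Y := by
  rw [rig, Finset.mem_filter]
  refine ⟨Finset.mem_univ _, ?_⟩
  by_contra hne
  obtain ⟨b, hb⟩ := Finset.nonempty_iff_ne_empty.mpr hne
  rw [free, Finset.mem_filter] at hb
  obtain ⟨-, hbz, hbu, hbn⟩ := hb
  have hP : Proper G Y := ke_proper hY C.prop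
  have hr1 := recol hP u b hbn
  have huz : Y u ≠ z := by
    intro he
    exact hP h u hu (by rw [hh, he])
  have hne' : h ≠ u := hu.ne
  have hr2 := recol hr1.2 h (Y u) (by
    intro x hx
    by_cases hxu : x = u
    · subst hxu
      rw [Function.update_self]
      exact hbu
    · rw [Function.update_of_ne hxu]
      intro he
      have hmem : x ∈ cn G Y h (Y u) := by
        rw [cn, Finset.mem_filter, nb, Finset.mem_filter]
        exact ⟨⟨Finset.mem_univ _, hx⟩, he⟩
      rw [h1, Finset.mem_singleton] at hmem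
      exact hxu hmem)
  have h2 := C.minH _ ((hY.trans hr1.1).trans hr2.1)
  have h3 : holes z (Function.update (Function.update Y u b) h (Y u)) ⊆ (holes z Y).erase h := by
    intro x hx
    rw [hrig_mem_holes] at hx
    by_cases hxh : x = h
    · subst hxh
      rw [Function.update_self] at hx
      exact absurd hx huz
    · rw [Function.update_of_ne hxh] at hx
      by_cases hxu : x = u
      · subst hxu
        rw [Function.update_self] at hx
        exact absurd hx hbz
      · rw [Function.update_of_ne hxu] at hx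
        exact Finset.mem_erase.mpr ⟨hxh, hrig_mem_holes.mpr hx⟩
  have h4 := Finset.card_le_card h3
  have h5 := Finset.card_erase_lt_of_mem (hrig_mem_holes.mpr hh : h ∈ holes z Y)
  omega

/-- Proof. Exchange `z` and `a` on the closed set `T ∪ T.biUnion (cn · a)` (a `KStep` with
`p = z`, `q = a`): the new holes are `holes \ T` and the set `T.biUnion (cn · a)`. By
minimality `η ≤ η - T.card + (T.biUnion ..).card`. -/
theorem closed_holes {G : SimpleGraph V} {z : K} {Δ s η : ℕ} {R : Finset V} {X : V → K}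
    (C : Ctx G z Δ s η R X) {Y : V → K} (hY : KE G X Y) (hη : (holes z Y).card = η)
    (a : K) (ha : a ≠ z) (T : Finset V) (hT : T ⊆ holes z Y)
    (hcl : ∀ h ∈ T, ∀ h' ∈ holes z Y, (∃ u, u ∈ cn G Y h a ∧ u ∈ cn G Y h' a) → h' ∈ T) :
    T.card ≤ (T.biUnion (fun h => cn G Y h a)).card := by
  have hP : Proper G Y := ke_proper hY C.prop
  have hcn : ∀ {x y : V}, y ∈ cn G Y x a ↔ G.Adj x y ∧ Y y = a := by
    intro x y
    simp [cn, nb]
  set B := T.biUnion (fun h => cn G Y h a) with hB
  have hBm : ∀ {y : V}, y ∈ B ↔ ∃ h ∈ T, G.Adj h y ∧ Y y = a := by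
    intro y
    rw [hB, Finset.mem_biUnion]
    constructor
    · rintro ⟨h, hh, hy⟩
      exact ⟨h, hh, hcn.mp hy⟩
    · rintro ⟨h, hh, hy⟩
      exact ⟨h, hh, hcn.mpr hy⟩
  obtain ⟨S, hS⟩ : ∃ S : Set V, ∀ x, x ∈ S ↔ x ∈ T ∨ x ∈ B :=
    ⟨{x | x ∈ T ∨ x ∈ B}, fun _ => Iff.rfl⟩
  obtain ⟨Y', hY'⟩ : ∃ Y' : V → K, ∀ u, Y' u = if u ∈ S then sw z a (Y u) else Y u :=
    ⟨_, fun _ => rfl⟩
  have hstep : KStep G Y Y' := by
    refine ⟨z, a, S, ?_, ?_, hY'⟩
    · intro u hu
      rcases (hS u).mp hu with hu | hu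
      · exact Or.inl (hrig_mem_holes.mp (hT hu))
      · obtain ⟨h, -, -, he⟩ := hBm.mp hu
        exact Or.inr he
    · intro u hu x hux hx
      rw [hS x]
      rcases (hS u).mp hu with hu | hu
      · have huz : Y u = z := hrig_mem_holes.mp (hT hu)
        rcases hx with hx | hx
        · exact absurd (huz.trans hx.symm) (hP u x hux)
        · exact Or.inr (hBm.mpr ⟨u, hu, hux, hx⟩)
      · obtain ⟨h, hh, hhu, he⟩ := hBm.mp hu
        rcases hx with hx | hx
        · left
          exact hcl h hh x (hrig_mem_holes.mpr hx) ⟨u, hcn.mpr ⟨hhu, he⟩, hcn.mpr ⟨hux.symm, he⟩⟩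
        · exact absurd (he.trans hx.symm) (hP u x hux)
  have hsub : holes z Y' ⊆ (holes z Y \ T) ∪ B := by
    intro x hx
    rw [hrig_mem_holes, hY'] at hx
    rw [Finset.mem_union, Finset.mem_sdiff]
    by_cases hxC : x ∈ S
    · rw [if_pos hxC] at hx
      rcases (hS x).mp hxC with hxT | hxB
      · exfalso
        have hxz : Y x = z := hrig_mem_holes.mp (hT hxT)
        rw [hxz, sw, if_pos rfl] at hx
        exact ha hx
      · exact Or.inr hxB
    · left
      rw [if_neg hxC] at hx
      exact ⟨hrig_mem_holes.mpr hx, fun hxT => hxC ((hS x).mpr (Or.inl hxT))⟩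
  have h2 := C.minH Y' (hY.tail hstep)
  have h3 := Finset.card_le_card hsub
  have h4 := Finset.card_union_le (holes z Y \ T) B
  have h5 := Finset.card_sdiff_add_card_eq_card hT
  omega

end Pool.Agent.KMA
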