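import Pool.Agent.KMA.Defs
import Pool.Agent.KMP.KEB

/-! SWL: exchanging a chain with two vertices. -/

set_option autoImplicit false

namespace Pool.Agent.KMA

open Finset Pool.Agent.KMP
open scoped Classical

variable {V K : Type} [Fintype V] [Fintype K]

theorem swl_mem_nb {G : SimpleGraph V} {x y : V} : y ∈ nb G x ↔ G.Adj x y := by
  simp [nb]

theorem swl_mem_cn {G : SimpleGraph V} {c : V → K} {x y : V} {a : K} :
    y ∈ cn G c x a ↔ G.Adj x y ∧ c y = a := by
  simp [cn, nb]

theorem swl_mem_free {G : SimpleGraph V} {z : K} {c : V → K} {x : V} {b : K} :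
    b ∈ free G z c x ↔ b ≠ z ∧ b ≠ c x ∧ ∀ y, G.Adj x y → c y ≠ b := by
  simp [free]

theorem swl_mem_rig {G : SimpleGraph V} {z : K} {c : V → K} {x : V} :
    x ∈ rig G z c ↔ free G z c x = ∅ := by
  simp [rig]

theorem swl_mem_SS {G : SimpleGraph V} {z : K} {η : ℕ} {R : Finset V} {X Y : V → K} :
    Y ∈ SS G z η R X ↔ KE G X Y ∧ (holes z Y).card = η ∧ rig G z Y = R := by
  simp [SS]

theorem swl_ex_left (Y : V → K) (p u : V) : ex Y p u p = Y u := by
  simp [ex]

theorem swl_ex_right (Y : V → K) (p u : V) : ex Y p u u = Y p := by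
  simp [ex]

theorem swl_ex_of_ne (Y : V → K) {p u x : V} (h1 : x ≠ p) (h2 : x ≠ u) : ex Y p u x = Y x := by
  simp [ex, Equiv.swap_apply_of_ne_of_ne h1 h2]

theorem swl_K2_symm {G : SimpleGraph V} {Y : V → K} {p u : V} (h : K2 G Y p u) :
    K2 G Y u p := ⟨h.1.symm, h.2.2, h.2.1⟩

/-- Proof. The KStep with colours `Y p`, `Y u` and set `{p, u}` (or `KMP.flip2`). -/
theorem ex_ke {G : SimpleGraph V} {Y : V → K} (hp : Proper G Y) {p u : V}
    (h : K2 G Y p u) : KE G Y (ex Y p u) := by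
  have hpu : Y p ≠ Y u := hp _ _ h.1
  apply Relation.ReflTransGen.single
  refine ⟨Y p, Y u, {x | x = p ∨ x = u}, ?_, ?_, ?_⟩
  · rintro x (rfl | rfl)
    · left; rfl
    · right; rfl
  · rintro x (rfl | rfl) y hxy hy
    · rcases hy with hy | hy
      · exact absurd hy.symm (hp _ _ hxy)
      · right
        have : y ∈ cn G Y x (Y u) := swl_mem_cn.2 ⟨hxy, hy⟩
        rw [h.2.1] at this
        simpa using this
    · rcases hy with hy | hy
      · left
        have : y ∈ cn G Y x (Y p) := swl_mem_cn.2 ⟨hxy, hy⟩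
        rw [h.2.2] at this
        simpa using this
      · exact absurd hy.symm (hp _ _ hxy)
  · intro x
    by_cases h1 : x = p
    · subst h1
      simp [swl_ex_left, sw]
    · by_cases h2 : x = u
      · subst h2
        simp only [swl_ex_right, Set.mem_setOf_eq, or_true, if_true]
        unfold sw
        rw [if_neg (Ne.symm hpu), if_pos rfl]
      · rw [swl_ex_of_ne Y h1 h2, if_neg]
        rintro (h | h)
        · exact h1 h
        · exact h2 h

theorem ex_holes (z : K) (Y : V → K) (p u : V) :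
    (holes z (ex Y p u)).card = (holes z Y).card := by
  apply Finset.card_bij (fun x _ => Equiv.swap p u x)
  · intro x hx
    simpa [holes, ex] using hx
  · intro x _ y _ hxy
    exact (Equiv.swap p u).injective hxy
  · intro y hy
    refine ⟨Equiv.swap p u y, ?_, ?_⟩
    · simpa [holes, ex] using hy
    · simp

/-- Proof. `ex Y p u` is in the Kempe class, has `η` holes, so by `minR` its rigid set `R'` has at least
`R.card` elements and `R' ≠ R`; hence some `w ∈ R'`, `w ∉ R = rig Y`. So `w ≠ p, u` and `Y w` is not changed.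
Every colour `b` in `free Y w` (not empty) is seen by `w` in `ex Y p u`, so (as it is not seen in `Y`) at `p` with
`b = Y u`, or at `u` with `b = Y p`. In the first case `G.Adj p w`, `Y p` is not free for `w`, so the second case
happens for no other `b` and `free Y w = {Y u}`. Likewise in the second case. -/
theorem swap_lemma {G : SimpleGraph V} {z : K} {Δ s η : ℕ} {R : Finset V} {X : V → K}
    (C : Ctx G z Δ s η R X) {Y : V → K} (hY : Y ∈ SS G z η R X) {p u : V} (hp : p ∈ R)
    (hu : u ∈ R) (h : K2 G Y p u) (hn : ex Y p u ∉ SS G z η R X) :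
    ∃ w, w ∉ R ∧ ((G.Adj p w ∧ free G z Y w = {Y u}) ∨ (G.Adj u w ∧ free G z Y w = {Y p})) := by
  obtain ⟨hYK, hYη, hYR⟩ := swl_mem_SS.1 hY
  have hYp : Proper G Y := ke_proper hYK C.prop
  have hK : KE G X (ex Y p u) := hYK.trans (ex_ke hYp h)
  have hη : (holes z (ex Y p u)).card = η := by rw [ex_holes, hYη]
  have hne : rig G z (ex Y p u) ≠ R := fun h' => hn (swl_mem_SS.2 ⟨hK, hη, h'⟩)
  have hcard := C.minR _ hK hη
  have hns : ¬ rig G z (ex Y p u) ⊆ R := fun hsub =>
    hne (Finset.eq_of_subset_of_card_le hsub hcard)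
  obtain ⟨w, hw, hwR⟩ := Finset.not_subset.1 hns
  have hwp : w ≠ p := fun h' => hwR (h' ▸ hp)
  have hwu : w ≠ u := fun h' => hwR (h' ▸ hu)
  have hwe : ex Y p u w = Y w := swl_ex_of_ne Y hwp hwu
  rw [swl_mem_rig] at hw
  have hwf : free G z Y w ≠ ∅ := by
    intro h'
    apply hwR
    rw [← hYR, swl_mem_rig]
    exact h'
  -- every free colour is seen in the new colouring
  have key : ∀ b ∈ free G z Y w, (G.Adj p w ∧ b = Y u) ∨ (G.Adj u w ∧ b = Y p) := by
    intro b hb
    rw [swl_mem_free] at hb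
    have hb' : b ∉ free G z (ex Y p u) w := by rw [hw]; simp
    rw [swl_mem_free] at hb'
    push Not at hb'
    obtain ⟨y, hy, hyb⟩ := hb' hb.1 (by rw [hwe]; exact hb.2.1)
    by_cases h1 : y = p
    · left
      subst h1
      rw [swl_ex_left] at hyb
      exact ⟨hy.symm, hyb.symm⟩
    · by_cases h2 : y = u
      · right
        subst h2
        rw [swl_ex_right] at hyb
        exact ⟨hy.symm, hyb.symm⟩
      · rw [swl_ex_of_ne Y h1 h2] at hyb
        exact absurd hyb (hb.2.2 y hy)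
  obtain ⟨b, hb⟩ := Finset.nonempty_iff_ne_empty.2 hwf
  refine ⟨w, hwR, ?_⟩
  rcases key b hb with ⟨h1, h2⟩ | ⟨h1, h2⟩
  · left
    refine ⟨h1, ?_⟩
    apply Finset.eq_singleton_iff_unique_mem.2
    refine ⟨h2 ▸ hb, ?_⟩
    intro b' hb'
    rcases key b' hb' with ⟨_, h4⟩ | ⟨_, h4⟩
    · exact h4
    · exact absurd h4.symm ((swl_mem_free.1 hb').2.2 p h1.symm)
  · right
    refine ⟨h1, ?_⟩
    apply Finset.eq_singleton_iff_unique_mem.2
    refine ⟨h2 ▸ hb, ?_⟩
    intro b' hb'
    rcases key b' hb' with ⟨_, h4⟩ | ⟨_, h4⟩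
    · exact absurd h4.symm ((swl_mem_free.1 hb').2.2 u h1.symm)
    · exact h4

/-- Proof. Let `Y' = ex Y p p'`. `w` is rigid in `Y'` (`rig Y' = R`), `w ≠ p, p'`, `Y p ≠ z`, `Y p ≠ Y w`
(`Y` proper), so some neighbour `y` of `w` has `Y' y = Y p`; `y = p` is impossible (`Y' p = Y p' ≠ Y p`), `y ≠ p, p'` is
impossible because `cn G Y w (Y p) = {p}`, so `y = p'`. -/
theorem swap_adj {G : SimpleGraph V} {z : K} {Δ s η : ℕ} {R : Finset V} {X : V → K}
    (C : Ctx G z Δ s η R X) {Y : V → K} (hY : Y ∈ SS G z η R X) {p p' : V}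
    (hz : Y p ≠ z) (h : K2 G Y p p') (hs : ex Y p p' ∈ SS G z η R X) {w : V} (hw : w ∈ R)
    (hw' : w ≠ p') (h1 : cn G Y w (Y p) = {p}) : G.Adj p' w := by
  obtain ⟨hYK, hYη, hYR⟩ := swl_mem_SS.1 hY
  obtain ⟨hEK, hEη, hER⟩ := swl_mem_SS.1 hs
  have hYp : Proper G Y := ke_proper hYK C.prop
  have hpw : G.Adj w p := by
    have : p ∈ cn G Y w (Y p) := by rw [h1]; simp
    exact (swl_mem_cn.1 this).1
  have hwp : w ≠ p := hpw.ne
  have hwe : ex Y p p' w = Y w := swl_ex_of_ne Y hwp hw'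
  rw [← hER, swl_mem_rig] at hw
  have hb' : Y p ∉ free G z (ex Y p p') w := by rw [hw]; simp
  rw [swl_mem_free] at hb'
  push Not at hb'
  obtain ⟨y, hy, hyb⟩ := hb' hz (by rw [hwe]; exact (hYp _ _ hpw).symm)
  by_cases h1' : y = p
  · subst h1'
    rw [swl_ex_left] at hyb
    exact absurd hyb.symm (hYp _ _ h.1)
  · by_cases h2 : y = p'
    · subst h2
      exact hy.symm
    · rw [swl_ex_of_ne Y h1' h2] at hyb
      have : y ∈ cn G Y w (Y p) := swl_mem_cn.2 ⟨hy, hyb⟩
      rw [h1] at this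
      exact absurd (by simpa using this) h1'

end Pool.Agent.KMA
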