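import Pool.Agent.KMA.CNTA
import Pool.Agent.KMA.HRIG
import Pool.Agent.KMA.SWL

/-! CLB: counting inside the almost closed set `B` of rigid vertices. -/

set_option autoImplicit false

namespace Pool.Agent.KMA

open Finset Pool.Agent.KMP
open scoped Classical

variable {V K : Type} [Fintype V] [Fintype K]

theorem clb_mem_holes {z : K} {Y : V → K} {x : V} : x ∈ holes z Y ↔ Y x = z := by
  simp [holes]

/-- Proof. For `h ∈ B ∩ holes`: `Δ ≤ (nb G h).card + s` (`rig_hole`), and `nb G h` is contained in the union of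
`nb G h \ B` and `nb G h ∩ (B \ holes)` (neighbours of holes are not holes). The number of pairs `(h, x)`, `h ∈ B` hole,
`x ∈ B \ holes` adjacent, is at most `(s+1) (B \ holes).card` by `rig_col`. -/
theorem size_B {G : SimpleGraph V} {z : K} {Δ s η : ℕ} {R : Finset V} {X : V → K}
    (C : Ctx G z Δ s η R X) {Y : V → K} (hY : Y ∈ SS G z η R X) {B : Finset V} (hB : B ⊆ R)
    {t : ℕ} (hcl : ∑ p ∈ B, (nb G p \ B).card ≤ t * B.card) :
    Δ * (B ∩ holes z Y).card ≤ s * (B ∩ holes z Y).card + t * B.card +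
      (s + 1) * (B \ holes z Y).card := by
  obtain ⟨hYK, hYη, hYR⟩ := swl_mem_SS.1 hY
  have hYp : Proper G Y := ke_proper hYK C.prop
  have h1 : ∀ h ∈ B ∩ holes z Y, Δ ≤ s + (nb G h \ B).card +
      ((B \ holes z Y).filter (fun x => G.Adj h x)).card := by
    intro h hh
    rw [mem_inter, clb_mem_holes] at hh
    have hr : h ∈ rig G z Y := by rw [hYR]; exact hB hh.1
    have h2 := (rig_hole C.deg C.cK hh.2 hr).1
    have hsub : nb G h ⊆ (nb G h \ B) ∪ ((B \ holes z Y).filter (fun x => G.Adj h x)) := by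
      intro y hy
      have hay : G.Adj h y := swl_mem_nb.1 hy
      rw [mem_union]
      by_cases hyB : y ∈ B
      · right
        rw [mem_filter, mem_sdiff, clb_mem_holes]
        refine ⟨⟨hyB, ?_⟩, hay⟩
        intro hyz
        exact hYp _ _ hay (by rw [hh.2, hyz])
      · left
        rw [mem_sdiff]
        exact ⟨hy, hyB⟩
    have h3 := (card_le_card hsub).trans (card_union_le _ _)
    omega
  have h2 : Δ * (B ∩ holes z Y).card ≤ ∑ h ∈ B ∩ holes z Y, (s + (nb G h \ B).card +
      ((B \ holes z Y).filter (fun x => G.Adj h x)).card) := by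
    have := Finset.sum_le_sum h1
    rw [Finset.sum_const, smul_eq_mul, mul_comm] at this
    exact this
  rw [Finset.sum_add_distrib, Finset.sum_add_distrib, Finset.sum_const, smul_eq_mul] at h2
  have h3 : ∑ h ∈ B ∩ holes z Y, (nb G h \ B).card ≤ t * B.card :=
    (Finset.sum_le_sum_of_subset (f := fun h => (nb G h \ B).card) inter_subset_left).trans hcl
  have h4 : ∑ h ∈ B ∩ holes z Y, ((B \ holes z Y).filter (fun x => G.Adj h x)).card =
      ∑ x ∈ B \ holes z Y, ((B ∩ holes z Y).filter (fun h => G.Adj h x)).card :=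
    Finset.sum_card_bipartiteAbove_eq_sum_card_bipartiteBelow (fun h x => G.Adj h x)
  have h5 : ∀ x ∈ B \ holes z Y, ((B ∩ holes z Y).filter (fun h => G.Adj h x)).card ≤ s + 1 := by
    intro x hx
    rw [mem_sdiff, clb_mem_holes] at hx
    have hr : x ∈ rig G z Y := by rw [hYR]; exact hB hx.1
    refine le_trans (card_le_card ?_) (rig_col C.deg C.cK hx.2 hr).1
    intro h hh
    rw [mem_filter, mem_inter, clb_mem_holes] at hh
    rw [mem_filter]
    exact ⟨swl_mem_nb.2 hh.2.symm, hh.1.2⟩
  have h6 := Finset.sum_le_sum h5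
  rw [Finset.sum_const, smul_eq_mul] at h6
  rw [h4] at h2
  calc Δ * (B ∩ holes z Y).card ≤ _ := h2
    _ ≤ (B ∩ holes z Y).card * s + t * B.card + (B \ holes z Y).card * (s + 1) :=
      Nat.add_le_add (Nat.add_le_add_left h3 _) h6
    _ = _ := by ring

/-- Proof. `B₀ = B \ holes`. For `p ∈ B₀`: `Δ ≤ (out p).card + 2s + 2`, `out p` is contained in the union of `nb p \ B`,
of `{p' ∈ B₀ | K2 p p'}` and of `{p' ∈ B₀ | p ∈ nb p' \ out p'}` (note `Y p ≠ z`). Summed over `p` the last sets
have at most `∑_{p' ∈ B₀} (nb p' \ out p').card ≤ (2s+2) B₀.card` elements. -/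
theorem mutual_count {G : SimpleGraph V} {z : K} {Δ s η : ℕ} {R : Finset V} {X : V → K}
    (C : Ctx G z Δ s η R X) {Y : V → K} (hY : Y ∈ SS G z η R X) {B : Finset V} (hB : B ⊆ R)
    {t : ℕ} (hcl : ∑ p ∈ B, (nb G p \ B).card ≤ t * B.card) :
    Δ * (B \ holes z Y).card ≤
      ∑ p ∈ B \ holes z Y, ((B \ holes z Y).filter (fun p' => K2 G Y p p')).card +
        (4 * s + 4) * (B \ holes z Y).card + t * B.card := by
  obtain ⟨hYK, hYη, hYR⟩ := swl_mem_SS.1 hY
  have h1 : ∀ p ∈ B \ holes z Y, Δ ≤ (2 * s + 2) + (nb G p \ B).card +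
      ((B \ holes z Y).filter (fun p' => K2 G Y p p')).card +
      ((B \ holes z Y).filter (fun p' => p ∈ nb G p' \ out G z Y p')).card := by
    intro p hp
    rw [mem_sdiff, clb_mem_holes] at hp
    have hr : p ∈ rig G z Y := by rw [hYR]; exact hB hp.1
    have h2 := (rig_col C.deg C.cK hp.2 hr).2.1
    have hsub : out G z Y p ⊆ (nb G p \ B) ∪
        (((B \ holes z Y).filter (fun p' => K2 G Y p p')) ∪
        ((B \ holes z Y).filter (fun p' => p ∈ nb G p' \ out G z Y p'))) := by
      intro y hy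
      simp only [out, mem_filter] at hy
      obtain ⟨hyn, hyz, hyu⟩ := hy
      rw [mem_union, mem_union]
      by_cases hyB : y ∈ B
      · right
        by_cases hk : cn G Y y (Y p) = {p}
        · left
          rw [mem_filter, mem_sdiff, clb_mem_holes]
          exact ⟨⟨hyB, hyz⟩, swl_mem_nb.1 hyn, hyu, hk⟩
        · right
          rw [mem_filter, mem_sdiff, clb_mem_holes, mem_sdiff]
          refine ⟨⟨hyB, hyz⟩, swl_mem_nb.2 (swl_mem_nb.1 hyn).symm, ?_⟩
          simp only [out, mem_filter, not_and]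
          intro _ _ h'
          exact hk h'
      · left
        rw [mem_sdiff]
        exact ⟨hyn, hyB⟩
    have h3 := (card_le_card hsub).trans (card_union_le _ _)
    have h4 := card_union_le ((B \ holes z Y).filter (fun p' => K2 G Y p p'))
        ((B \ holes z Y).filter (fun p' => p ∈ nb G p' \ out G z Y p'))
    omega
  have h2 := Finset.sum_le_sum h1
  rw [Finset.sum_const, smul_eq_mul, Finset.sum_add_distrib, Finset.sum_add_distrib,
    Finset.sum_add_distrib, Finset.sum_const, smul_eq_mul] at h2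
  have h3 : ∑ h ∈ B \ holes z Y, (nb G h \ B).card ≤ t * B.card :=
    (Finset.sum_le_sum_of_subset (f := fun h => (nb G h \ B).card) sdiff_subset).trans hcl
  have h4 : ∑ p ∈ B \ holes z Y, ((B \ holes z Y).filter
      (fun p' => p ∈ nb G p' \ out G z Y p')).card =
      ∑ p' ∈ B \ holes z Y, ((B \ holes z Y).filter
      (fun p => p ∈ nb G p' \ out G z Y p')).card :=
    Finset.sum_card_bipartiteAbove_eq_sum_card_bipartiteBelow
      (fun p p' => p ∈ nb G p' \ out G z Y p')
  have h5 : ∀ x ∈ B \ holes z Y, ((B \ holes z Y).filter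
      (fun p => p ∈ nb G x \ out G z Y x)).card ≤ 2 * s + 2 := by
    intro x hx
    rw [mem_sdiff, clb_mem_holes] at hx
    have hr : x ∈ rig G z Y := by rw [hYR]; exact hB hx.1
    refine le_trans (card_le_card ?_) (rig_col C.deg C.cK hx.2 hr).2.2
    intro h hh
    rw [mem_filter] at hh
    exact hh.2
  have h6 := Finset.sum_le_sum h5
  rw [Finset.sum_const, smul_eq_mul] at h6
  rw [h4] at h2
  calc Δ * (B \ holes z Y).card = (B \ holes z Y).card * Δ := mul_comm _ _
    _ ≤ _ := h2
    _ ≤ (B \ holes z Y).card * (2 * s + 2) + t * B.card +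
        ∑ p ∈ B \ holes z Y, ((B \ holes z Y).filter (fun p' => K2 G Y p p')).card +
        (B \ holes z Y).card * (2 * s + 2) :=
      Nat.add_le_add (Nat.add_le_add_right (Nat.add_le_add_left h3 _) _) h6
    _ = _ := by ring

/-- Proof. `swap_lemma`: for a bad pair `(p, p')` there is `w ∉ R` adjacent to `p` with `free Y w = {Y p'}` or `w ∉ R`
adjacent to `p'` with `free Y w = {Y p}`. For fixed `p` the pairs of the first kind are at most
`(nb p \ B).card` many (`w` determines `Y p'` and `cn G Y p (Y p') = {p'}`); the pairs of the second kind are the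
transposed ones (K2 is symmetric). -/
theorem bad_count {G : SimpleGraph V} {z : K} {Δ s η : ℕ} {R : Finset V} {X : V → K}
    (C : Ctx G z Δ s η R X) {Y : V → K} (hY : Y ∈ SS G z η R X) {B : Finset V} (hB : B ⊆ R)
    {t : ℕ} (hcl : ∑ p ∈ B, (nb G p \ B).card ≤ t * B.card) :
    ∑ p ∈ B \ holes z Y, ((B \ holes z Y).filter
      (fun p' => K2 G Y p p' ∧ ex Y p p' ∉ SS G z η R X)).card ≤ 2 * t * B.card := by
  let r : V → V → Prop := fun p p' =>
    K2 G Y p p' ∧ ∃ w, w ∉ R ∧ G.Adj p w ∧ free G z Y w = {Y p'}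
  have h1 : ∀ p ∈ B \ holes z Y, ((B \ holes z Y).filter
      (fun p' => K2 G Y p p' ∧ ex Y p p' ∉ SS G z η R X)).card ≤
      ((B \ holes z Y).filter (fun p' => r p p')).card +
      ((B \ holes z Y).filter (fun p' => r p' p)).card := by
    intro p hp
    refine (card_le_card ?_).trans (card_union_le _ _)
    intro p' hp'
    rw [mem_filter] at hp'
    obtain ⟨hp'B, hk, hn⟩ := hp'
    have hpR : p ∈ R := hB (mem_sdiff.1 hp).1
    have hp'R : p' ∈ R := hB (mem_sdiff.1 hp'B).1
    obtain ⟨w, hw, hw'⟩ := swap_lemma C hY hpR hp'R hk hn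
    rw [mem_union, mem_filter, mem_filter]
    rcases hw' with ⟨h1, h2⟩ | ⟨h1, h2⟩
    · left
      exact ⟨hp'B, hk, w, hw, h1, h2⟩
    · right
      exact ⟨hp'B, swl_K2_symm hk, w, hw, h1, h2⟩
  have h2 : ∀ p ∈ B \ holes z Y, ((B \ holes z Y).filter (fun p' => r p p')).card ≤
      (nb G p \ B).card := by
    intro p hp
    apply Finset.card_le_card_of_forall_subsingleton
      (fun p' w => K2 G Y p p' ∧ free G z Y w = {Y p'})
    · intro p' hp'
      rw [mem_filter] at hp'
      obtain ⟨_, hk, w, hw, h1, h2⟩ := hp'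
      refine ⟨w, ?_, hk, h2⟩
      rw [mem_sdiff]
      exact ⟨swl_mem_nb.2 h1, fun h => hw (hB h)⟩
    · intro w hw p1 hp1 p2 hp2
      obtain ⟨_, hk1, hf1⟩ := hp1
      obtain ⟨_, hk2, hf2⟩ := hp2
      have he : Y p1 = Y p2 := by
        rw [hf1] at hf2
        exact Finset.singleton_injective hf2
      have h3 := hk1.2.1
      rw [he, hk2.2.1] at h3
      exact (Finset.singleton_injective h3).symm
  have h3 : ∑ p ∈ B \ holes z Y, (nb G p \ B).card ≤ t * B.card :=
    (Finset.sum_le_sum_of_subset (f := fun h => (nb G h \ B).card) sdiff_subset).trans hcl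
  have h4 : ∑ p ∈ B \ holes z Y, ((B \ holes z Y).filter (fun p' => r p' p)).card =
      ∑ p ∈ B \ holes z Y, ((B \ holes z Y).filter (fun p' => r p p')).card :=
    Finset.sum_card_bipartiteAbove_eq_sum_card_bipartiteBelow (fun p p' => r p' p)
  have h5 := Finset.sum_le_sum h1
  have h6 := Finset.sum_le_sum h2
  rw [Finset.sum_add_distrib, h4] at h5
  calc _ ≤ _ := h5
    _ ≤ t * B.card + t * B.card := Nat.add_le_add (h6.trans h3) (h6.trans h3)
    _ = _ := by ring

end Pool.Agent.KMA
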