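import Pool.Agent.KMA.Defs

/-! CNTA: neighbourhoods of rigid vertices. -/

set_option autoImplicit false

namespace Pool.Agent.KMA

open Finset Pool.Agent.KMP
open scoped Classical

variable {V K : Type} [Fintype V] [Fintype K]

/-- Proof. The sum over `b ∈ P` of the number of `y ∈ N` with `f y = b` is at most `N.card`; each term is at
least 1, and at least 2 if `b` is not taken exactly once. So `N.card + #(unique) ≥ 2 P.card`. -/
theorem uniq_count (N : Finset V) (f : V → K) (P : Finset K) (h : ∀ b ∈ P, ∃ y ∈ N, f y = b) :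
    2 * P.card ≤ N.card +
      (N.filter (fun y => f y ∈ P ∧ N.filter (fun y' => f y' = f y) = {y})).card := by
  set U := N.filter (fun y => f y ∈ P ∧ N.filter (fun y' => f y' = f y) = {y}) with hU
  have h1 : ∑ b ∈ P, (N.filter (fun y => f y = b)).card ≤ N.card := by
    have e : (N.filter (fun y => f y ∈ P)).card = ∑ b ∈ P, (N.filter (fun y => f y = b)).card := by
      rw [Finset.card_eq_sum_card_fiberwise (f := f) (s := N.filter (fun y => f y ∈ P)) (t := P)
        (fun y hy => (Finset.mem_filter.mp hy).2)]
      refine Finset.sum_congr rfl fun b hb => ?_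
      congr 1
      ext y
      simp only [Finset.mem_filter]
      constructor
      · rintro ⟨⟨h1, _⟩, h2⟩
        exact ⟨h1, h2⟩
      · rintro ⟨h1, h2⟩
        exact ⟨⟨h1, by rw [h2]; exact hb⟩, h2⟩
    rw [← e]
    exact Finset.card_filter_le _ _
  have h2 : ∑ b ∈ P, (U.filter (fun y => f y = b)).card = U.card := by
    rw [Finset.card_eq_sum_card_fiberwise (f := f) (s := U) (t := P)]
    intro y hy
    rw [Finset.mem_coe, hU, Finset.mem_filter] at hy
    exact hy.2.1
  have h3 : ∀ b ∈ P, 2 ≤ (N.filter (fun y => f y = b)).card + (U.filter (fun y => f y = b)).card := by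
    intro b hb
    obtain ⟨y, hy, hyb⟩ := h b hb
    have hyN : y ∈ N.filter (fun y => f y = b) := Finset.mem_filter.mpr ⟨hy, hyb⟩
    by_cases h4 : 2 ≤ (N.filter (fun y => f y = b)).card
    · omega
    · have h5 : (N.filter (fun y => f y = b)).card = 1 := by
        have : 0 < (N.filter (fun y => f y = b)).card := Finset.card_pos.mpr ⟨y, hyN⟩
        omega
      obtain ⟨w, hw⟩ := Finset.card_eq_one.mp h5
      have hyw : y = w := by
        rw [hw, Finset.mem_singleton] at hyN
        exact hyN
      have hyU : y ∈ U.filter (fun y => f y = b) := by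
        rw [hU, Finset.mem_filter, Finset.mem_filter]
        refine ⟨⟨hy, by rw [hyb]; exact hb, ?_⟩, hyb⟩
        rw [hyb, hw, hyw]
      have : 0 < (U.filter (fun y => f y = b)).card := Finset.card_pos.mpr ⟨y, hyU⟩
      omega
  have h6 : ∑ _b ∈ P, 2 ≤ ∑ b ∈ P, ((N.filter (fun y => f y = b)).card +
      (U.filter (fun y => f y = b)).card) := Finset.sum_le_sum h3
  rw [Finset.sum_add_distrib, h2, Finset.sum_const, smul_eq_mul] at h6
  omega

/-- colours which must occur around a rigid vertex -/
theorem cnta_occ {G : SimpleGraph V} {z : K} {c : V → K} {x : V} (hr : x ∈ rig G z c) {b : K}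
    (h1 : b ≠ z) (h2 : b ≠ c x) : ∃ y ∈ nb G x, c y = b := by
  have h3 : free G z c x = ∅ := by
    simpa [rig] using hr
  by_contra hcon
  push Not at hcon
  have h4 : b ∈ free G z c x := by
    unfold free
    rw [Finset.mem_filter]
    refine ⟨Finset.mem_univ _, h1, h2, fun y hy => hcon y ?_⟩
    simpa [nb] using hy
  rw [h3] at h4
  exact absurd h4 (Finset.notMem_empty _)

/-- Proof. `P = univ.erase z`, `P.card = Δ - s`, all colours of `P` occur around `h`. -/
theorem rig_hole {G : SimpleGraph V} {z : K} {Δ s : ℕ} (deg : ∀ x, (nb G x).card ≤ Δ)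
    (cK : Fintype.card K + s = Δ + 1) {c : V → K} {h : V} (hz : c h = z)
    (hr : h ∈ rig G z c) :
    Δ ≤ (nb G h).card + s ∧ (nb G h \ out G z c h).card ≤ 2 * s := by
  have hP : (Finset.univ.erase z : Finset K).card + 1 = Fintype.card K := by
    rw [Finset.card_erase_of_mem (Finset.mem_univ z), Finset.card_univ]
    have : 0 < Fintype.card K := Fintype.card_pos_iff.mpr ⟨z⟩
    omega
  have hc := uniq_count (nb G h) c (Finset.univ.erase z) (by
    intro b hb
    have hb' := Finset.ne_of_mem_erase hb
    exact cnta_occ hr hb' (by rw [hz]; exact hb'))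
  have e : (nb G h).filter (fun y => c y ∈ (Finset.univ.erase z : Finset K) ∧
      (nb G h).filter (fun y' => c y' = c y) = {y}) = out G z c h := by
    unfold out cn
    ext y
    simp [Finset.mem_filter]
  rw [e] at hc
  have hsub : out G z c h ⊆ nb G h := Finset.filter_subset _ _
  have h1 := Finset.card_le_card hsub
  have h2 := Finset.card_sdiff_add_card_eq_card hsub
  have h3 := deg h
  constructor <;> omega

/-- Proof. `P = (univ.erase z).erase (c x)`, `P.card = Δ - s - 1`; the neighbours of colour `z` are not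
counted in the sum over `P`. -/
theorem rig_col {G : SimpleGraph V} {z : K} {Δ s : ℕ} (deg : ∀ x, (nb G x).card ≤ Δ)
    (cK : Fintype.card K + s = Δ + 1) {c : V → K} {x : V} (hz : c x ≠ z)
    (hr : x ∈ rig G z c) :
    ((nb G x).filter (fun y => c y = z)).card ≤ s + 1 ∧
      Δ ≤ (out G z c x).card + 2 * s + 2 ∧ (nb G x \ out G z c x).card ≤ 2 * s + 2 := by
  have hP : ((Finset.univ.erase z : Finset K).erase (c x)).card + 2 = Fintype.card K := by
    have h1 : c x ∈ (Finset.univ.erase z : Finset K) := Finset.mem_erase.mpr ⟨hz, Finset.mem_univ _⟩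
    have h2 := Finset.card_erase_of_mem h1
    have h3 := Finset.card_erase_of_mem (Finset.mem_univ z)
    have h4 : 0 < (Finset.univ.erase z : Finset K).card := Finset.card_pos.mpr ⟨_, h1⟩
    rw [Finset.card_univ] at h3
    have : 0 < Fintype.card K := Fintype.card_pos_iff.mpr ⟨z⟩
    omega
  set P := ((Finset.univ.erase z : Finset K).erase (c x)) with hPdef
  have hocc : ∀ b ∈ P, ∃ y ∈ nb G x, c y = b := by
    intro b hb
    rw [hPdef, Finset.mem_erase, Finset.mem_erase] at hb
    exact cnta_occ hr hb.2.1 hb.1
  have hc := uniq_count (nb G x) c P hocc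
  have hc2 := uniq_count ((nb G x).filter (fun y => c y ≠ z)) c P (by
    intro b hb
    obtain ⟨y, hy, hyb⟩ := hocc b hb
    refine ⟨y, Finset.mem_filter.mpr ⟨hy, ?_⟩, hyb⟩
    rw [hyb]
    rw [hPdef, Finset.mem_erase, Finset.mem_erase] at hb
    exact hb.2.1)
  have h1 := Finset.card_filter_le ((nb G x).filter (fun y => c y ≠ z))
    (fun y => c y ∈ P ∧ ((nb G x).filter (fun y => c y ≠ z)).filter (fun y' => c y' = c y) = {y})
  have hsplit : ((nb G x).filter (fun y => c y = z)).card +
      ((nb G x).filter (fun y => c y ≠ z)).card = (nb G x).card := by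
    have h0 := Finset.card_filter_add_card_filter_not (s := nb G x) (fun y => c y = z)
    convert h0 using 2
  have h3 := deg x
  have hsub1 : (nb G x).filter (fun y => c y ∈ P ∧
      (nb G x).filter (fun y' => c y' = c y) = {y}) ⊆ out G z c x := by
    intro y hy
    rw [Finset.mem_filter] at hy
    unfold out cn
    rw [Finset.mem_filter]
    refine ⟨hy.1, ?_, hy.2.2⟩
    have h5 := hy.2.1
    rw [hPdef, Finset.mem_erase, Finset.mem_erase] at h5
    exact h5.2.1
  have h4 := Finset.card_le_card hsub1
  have hsub : out G z c x ⊆ nb G x := Finset.filter_subset _ _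
  have h5 := Finset.card_le_card hsub
  have h6 := Finset.card_sdiff_add_card_eq_card hsub
  refine ⟨?_, ?_, ?_⟩ <;> omega

end Pool.Agent.KMA
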