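import Pool.Agent.KMA.Defs

/-! COA: a level set with small boundary. -/

set_option autoImplicit false

namespace Pool.Agent.KMA

open Finset Pool.Agent.KMP
open scoped Classical

variable {V K : Type} [Fintype V] [Fintype K]

theorem coa_card_filter_le (N m : ℕ) (h : m ≤ N) :
    ((Finset.Icc 1 N).filter (fun l => l ≤ m)).card = m := by
  have : (Finset.Icc 1 N).filter (fun l => l ≤ m) = Finset.Icc 1 m := by
    ext l
    simp only [Finset.mem_filter, Finset.mem_Icc]
    omega
  rw [this]
  simp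

/-- Proof. `ν p` = number of `Y ∈ S` with `Y p = z`; for `G.Adj p u` let `F p u` = number of `Y ∈ S` with `Y p = z`
and `ex Y p u ∈ S`. `Y ↦ ex Y p u` shows `F p u = F u p`, so `F p u ≤ min (ν p) (ν u)`, which is the number of
`l ∈ [1, N]` with `l ≤ ν p`, `l ≤ ν u`. Summing `hfl` over `Y` and exchanging sums:
`Δ ∑_p ν p ≤ ∑_p ∑_{u ∈ nb p} F p u + t ∑_p ν p`. With `B l = {p | l ≤ ν p}` (`∑_p ν p = ∑_l (B l).card`):
`Δ ∑_l (B l).card ≤ ∑_l ∑_{p ∈ B l} (nb p ∩ B l).card + t ∑_l (B l).card`. So some `l ≥ 1` with `B l` nonempty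
has `Δ (B l).card ≤ ∑_{p ∈ B l} (nb p ∩ B l).card + t (B l).card` (otherwise the reverse strict inequality sums up;
the sum of `(B l).card` is positive). Finally `(nb p \ B).card + (nb p ∩ B).card ≤ Δ`. -/
theorem coarea (G : SimpleGraph V) (z : K) (S : Finset (V → K)) (hS : S.Nonempty) (Δ t : ℕ)
    (deg : ∀ x, (nb G x).card ≤ Δ) (hpos : ∀ Y ∈ S, (holes z Y).Nonempty)
    (hfl : ∀ Y ∈ S, Δ * (holes z Y).card ≤
      ∑ h ∈ holes z Y, ((nb G h).filter (fun u => ex Y h u ∈ S)).card + t * (holes z Y).card) :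
    ∃ B : Finset V, B.Nonempty ∧ (∀ p ∈ B, ∃ Y ∈ S, Y p = z) ∧
      ∑ p ∈ B, (nb G p \ B).card ≤ t * B.card := by
  set ν : V → ℕ := fun p => (S.filter (fun Y => Y p = z)).card with hν
  set F : V → V → ℕ := fun p u => (S.filter (fun Y => Y p = z ∧ ex Y p u ∈ S)).card with hF
  set N : ℕ := S.card with hN
  set B : ℕ → Finset V := fun l => univ.filter (fun p => l ≤ ν p) with hB
  have hνN : ∀ p, ν p ≤ N := fun p => Finset.card_filter_le _ _
  have hF1 : ∀ p u, F p u ≤ ν p := by
    intro p u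
    apply Finset.card_le_card
    intro Y hY
    simp only [Finset.mem_filter] at hY ⊢
    exact ⟨hY.1, hY.2.1⟩
  have hF2 : ∀ p u, F p u ≤ ν u := by
    intro p u
    apply Finset.card_le_card_of_injOn (fun Y => ex Y p u)
    · intro Y hY
      simp only [Finset.coe_filter, Set.mem_setOf_eq] at hY
      simp only [Finset.coe_filter, Set.mem_setOf_eq]
      refine ⟨hY.2.2, ?_⟩
      simp only [ex, Equiv.swap_apply_right]
      exact hY.2.1
    · intro Y _ Y' _ hYY
      funext x
      have := congrFun hYY (Equiv.swap p u x)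
      simp only [ex, Equiv.swap_apply_self] at this
      exact this
  -- sums of holes
  have e1 : ∑ Y ∈ S, (holes z Y).card = ∑ p, ν p := by
    simp only [holes, Finset.card_filter, hν]
    rw [Finset.sum_comm]
  have e2 : ∑ Y ∈ S, ∑ h ∈ holes z Y, ((nb G h).filter (fun u => ex Y h u ∈ S)).card
      = ∑ p, ∑ u ∈ nb G p, F p u := by
    have : ∀ Y ∈ S, ∑ h ∈ holes z Y, ((nb G h).filter (fun u => ex Y h u ∈ S)).card
        = ∑ p, ∑ u ∈ nb G p, (if Y p = z ∧ ex Y p u ∈ S then 1 else 0) := by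
      intro Y _
      rw [holes, Finset.sum_filter]
      refine Finset.sum_congr rfl fun p _ => ?_
      by_cases hp : Y p = z
      · simp only [hp, if_true, true_and, Finset.card_filter]
      · simp only [hp, if_false, false_and, Finset.sum_const_zero]
    rw [Finset.sum_congr rfl this, Finset.sum_comm]
    refine Finset.sum_congr rfl fun p _ => ?_
    rw [Finset.sum_comm]
    refine Finset.sum_congr rfl fun u _ => ?_
    simp only [hF, Finset.card_filter]
  have e3 : ∑ p, ν p = ∑ l ∈ Finset.Icc 1 N, (B l).card := by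
    have : ∀ p, ν p = ∑ l ∈ Finset.Icc 1 N, (if l ≤ ν p then 1 else 0) := by
      intro p
      rw [← Finset.card_filter, coa_card_filter_le N (ν p) (hνN p)]
    rw [Finset.sum_congr rfl (fun p _ => this p), Finset.sum_comm]
    refine Finset.sum_congr rfl fun l _ => ?_
    rw [hB, Finset.card_filter]
  have e4 : ∑ p, ∑ u ∈ nb G p, F p u ≤
      ∑ l ∈ Finset.Icc 1 N, ∑ p ∈ B l, (nb G p ∩ B l).card := by
    have h1 : ∀ p u, F p u ≤ ∑ l ∈ Finset.Icc 1 N, (if l ≤ ν p ∧ l ≤ ν u then 1 else 0) := by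
      intro p u
      rw [← Finset.card_filter]
      have : ((Finset.Icc 1 N).filter (fun l => l ≤ ν p ∧ l ≤ ν u)).card = min (ν p) (ν u) := by
        rw [← coa_card_filter_le N (min (ν p) (ν u)) (le_trans (min_le_left _ _) (hνN p))]
        congr 1
        ext l
        simp only [Finset.mem_filter, le_min_iff]
      rw [this]
      exact le_min (hF1 p u) (hF2 p u)
    calc ∑ p, ∑ u ∈ nb G p, F p u
        ≤ ∑ p, ∑ u ∈ nb G p, ∑ l ∈ Finset.Icc 1 N, (if l ≤ ν p ∧ l ≤ ν u then 1 else 0) :=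
          Finset.sum_le_sum fun p _ => Finset.sum_le_sum fun u _ => h1 p u
      _ = ∑ l ∈ Finset.Icc 1 N, ∑ p, ∑ u ∈ nb G p, (if l ≤ ν p ∧ l ≤ ν u then 1 else 0) := by
          rw [Finset.sum_comm]
          refine Finset.sum_congr rfl fun p _ => ?_
          exact Finset.sum_comm
      _ = ∑ l ∈ Finset.Icc 1 N, ∑ p ∈ B l, (nb G p ∩ B l).card := by
          refine Finset.sum_congr rfl fun l _ => ?_
          rw [hB, Finset.sum_filter]
          refine Finset.sum_congr rfl fun p _ => ?_
          by_cases hp : l ≤ ν p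
          · simp only [hp, if_true, true_and]
            rw [← Finset.card_filter]
            congr 1
            ext u
            simp only [Finset.mem_filter, Finset.mem_inter, Finset.mem_univ, true_and]
          · simp only [hp, if_false, false_and, Finset.sum_const_zero]
  have key : Δ * ∑ l ∈ Finset.Icc 1 N, (B l).card ≤
      ∑ l ∈ Finset.Icc 1 N, ∑ p ∈ B l, (nb G p ∩ B l).card +
        t * ∑ l ∈ Finset.Icc 1 N, (B l).card := by
    have h := Finset.sum_le_sum hfl
    rw [← Finset.mul_sum, Finset.sum_add_distrib, ← Finset.mul_sum, e1, e2] at h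
    rw [← e3]
    exact h.trans (Nat.add_le_add_right e4 _)
  obtain ⟨l, hl, hne, hgood⟩ : ∃ l ∈ Finset.Icc 1 N, (B l).Nonempty ∧
      Δ * (B l).card ≤ ∑ p ∈ B l, (nb G p ∩ B l).card + t * (B l).card := by
    by_contra hcon
    push_neg at hcon
    obtain ⟨Y, hY⟩ := hS
    obtain ⟨h, hh⟩ := hpos Y hY
    have hh' : Y h = z := by
      simpa [holes] using hh
    have hνh : 1 ≤ ν h := by
      apply Finset.card_pos.mpr
      exact ⟨Y, by simp [hY, hh']⟩
    have hN1 : 1 ≤ N := Finset.card_pos.mpr ⟨Y, hY⟩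
    have hB1 : (B 1).Nonempty := ⟨h, by simp [hB, hνh]⟩
    have hlt : ∑ l ∈ Finset.Icc 1 N, (∑ p ∈ B l, (nb G p ∩ B l).card + t * (B l).card) <
        ∑ l ∈ Finset.Icc 1 N, Δ * (B l).card := by
      apply Finset.sum_lt_sum
      · intro l hl
        by_cases hBl : (B l).Nonempty
        · exact (hcon l hl hBl).le
        · rw [Finset.not_nonempty_iff_eq_empty] at hBl
          simp [hBl]
      · exact ⟨1, by simp [hN1], hcon 1 (by simp [hN1]) hB1⟩
    rw [Finset.sum_add_distrib, ← Finset.mul_sum, ← Finset.mul_sum] at hlt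
    omega
  refine ⟨B l, hne, ?_, ?_⟩
  · intro p hp
    have hp' : l ≤ ν p := by simpa [hB] using hp
    have hl1 : 1 ≤ l := (Finset.mem_Icc.mp hl).1
    have : 0 < ν p := by omega
    obtain ⟨Y, hY⟩ := Finset.card_pos.mp this
    simp only [Finset.mem_filter] at hY
    exact ⟨Y, hY.1, hY.2⟩
  · have h1 : ∑ p ∈ B l, (nb G p \ B l).card + ∑ p ∈ B l, (nb G p ∩ B l).card ≤ Δ * (B l).card := by
      rw [← Finset.sum_add_distrib]
      calc ∑ p ∈ B l, ((nb G p \ B l).card + (nb G p ∩ B l).card)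
          ≤ ∑ p ∈ B l, Δ := by
            refine Finset.sum_le_sum fun p _ => ?_
            rw [Finset.card_sdiff_add_card_inter]
            exact deg p
        _ = Δ * (B l).card := by
            rw [Finset.sum_const, smul_eq_mul, mul_comm]
    omega

end Pool.Agent.KMA
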