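import Pool.Agent.KMP.Defs

/-! Definitions of the short proof (eliminating one colour by Kempe changes). -/

set_option autoImplicit false

namespace Pool.Agent.KMA

open Finset Pool.Agent.KMP
open scoped Classical

noncomputable section

variable {V K : Type} [Fintype V] [Fintype K]

/-- neighbours of `x` of colour `a` -/
def cn (G : SimpleGraph V) (c : V → K) (x : V) (a : K) : Finset V :=
  (nb G x).filter (fun y => c y = a)

/-- holes: the vertices of colour `z` -/
def holes (z : K) (c : V → K) : Finset V := univ.filter (fun x => c x = z)

/-- colours other than `z` and the own colour which do not occur around `x` -/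
def free (G : SimpleGraph V) (z : K) (c : V → K) (x : V) : Finset K :=
  univ.filter (fun b => b ≠ z ∧ b ≠ c x ∧ ∀ y, G.Adj x y → c y ≠ b)

/-- rigid vertices: there is no free colour -/
def rig (G : SimpleGraph V) (z : K) (c : V → K) : Finset V :=
  univ.filter (fun x => free G z c x = ∅)

/-- exchange the colours of two vertices -/
def ex (c : V → K) (p u : V) : V → K := fun x => c (Equiv.swap p u x)

/-- the vertices `p`, `u` form a whole Kempe chain -/
def K2 (G : SimpleGraph V) (c : V → K) (p u : V) : Prop :=
  G.Adj p u ∧ cn G c p (c u) = {u} ∧ cn G c u (c p) = {p}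

/-- neighbours of `x`, not holes, whose colour is unique around `x` -/
def out (G : SimpleGraph V) (z : K) (c : V → K) (x : V) : Finset V :=
  (nb G x).filter (fun y => c y ≠ z ∧ cn G c x (c y) = {y})

/-- Standing assumptions: `η` is the smallest number of holes in the Kempe class of `X`, and
`R` has the smallest size of a set of rigid vertices of a colouring with `η` holes. -/
structure Ctx (G : SimpleGraph V) (z : K) (Δ s η : ℕ) (R : Finset V) (X : V → K) : Prop where
  prop : Proper G X
  deg : ∀ x, (nb G x).card ≤ Δ
  cK : Fintype.card K + s = Δ + 1
  minH : ∀ Y, KE G X Y → η ≤ (holes z Y).card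
  minR : ∀ Y, KE G X Y → (holes z Y).card = η → R.card ≤ (rig G z Y).card

/-- the colourings of the class with `η` holes and rigid set `R` -/
def SS (G : SimpleGraph V) (z : K) (η : ℕ) (R : Finset V) (X : V → K) : Finset (V → K) :=
  univ.filter (fun Y => KE G X Y ∧ (holes z Y).card = η ∧ rig G z Y = R)

end

end Pool.Agent.KMA
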