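import Pool.Agent.KMA.HRIG
import Pool.Agent.KMA.CHB

/-! KCN: most pairs (hole, colour) give a chain with two vertices. -/

set_option autoImplicit false

namespace Pool.Agent.KMA

open Finset Pool.Agent.KMP
open scoped Classical

variable {V K : Type} [Fintype V] [Fintype K]

theorem kcn_mem {G : SimpleGraph V} {c : V → K} {x y : V} {a : K} :
    y ∈ cn G c x a ↔ G.Adj x y ∧ c y = a := by
  simp [cn, nb]

/-- Proof. For each `a ≠ z` apply `chain_bound` with `H = holes z Y`, `A h = cn G Y h a` (nonempty because
holes are rigid, `hole_rig`; `hcl` is `closed_holes`). If `h` is not bad for `a` then `cn G Y h a = {u}` and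
`K2 G Y h u` with `Y u = a`; for fixed `h` different `a` give different `u`. Sum over the `Δ - s` colours
`a ≠ z`: `∑ bad_a + 2 (Δ-s) η ≤ 2 ∑_h (nb G h).card ≤ 2 Δ η`, and the number of pairs which are not bad is
`(Δ-s) η - ∑ bad_a ≥ (Δ - 3s) η`. -/
theorem k2_count {G : SimpleGraph V} {z : K} {Δ s η : ℕ} {R : Finset V} {X : V → K}
    (C : Ctx G z Δ s η R X) {Y : V → K} (hY : KE G X Y) (hη : (holes z Y).card = η) :
    Δ * η ≤ ∑ h ∈ holes z Y, ((nb G h).filter (fun u => K2 G Y h u)).card + 3 * s * η := by
  set H := holes z Y with hH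
  set P : Finset K := univ.erase z with hPdef
  set good : K → V → Prop := fun a h => (cn G Y h a).card = 1 ∧
    ∀ h' ∈ H, (∃ u, u ∈ cn G Y h a ∧ u ∈ cn G Y h' a) → h' = h with hgood
  have hPc : P.card + s = Δ := by
    have h1 := C.cK
    have h2 : P.card = Fintype.card K - 1 := by
      rw [hPdef, Finset.card_erase_of_mem (Finset.mem_univ z), Finset.card_univ]
    have h3 : 0 < Fintype.card K := Fintype.card_pos_iff.mpr ⟨z⟩
    omega
  -- the chain bound for one colour
  have hb : ∀ a ∈ P, (H.filter (fun h => ¬ good a h)).card + 2 * η ≤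
      2 * ∑ h ∈ H, (cn G Y h a).card := by
    intro a ha
    have haz : a ≠ z := Finset.ne_of_mem_erase ha
    have := chain_bound H (fun h => cn G Y h a) (by
      intro h hh
      have hr := hole_rig C hY hη hh
      rw [rig, Finset.mem_filter] at hr
      by_contra hne
      rw [Finset.not_nonempty_iff_eq_empty] at hne
      have hmem : a ∈ free G z Y h := by
        rw [free, Finset.mem_filter]
        refine ⟨Finset.mem_univ _, haz, ?_, fun y hy he => ?_⟩
        · rw [hrig_mem_holes.mp hh]
          exact haz
        · have : y ∈ cn G Y h a := kcn_mem.mpr ⟨hy, he⟩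
          rw [hne] at this
          exact absurd this (Finset.notMem_empty y)
      rw [hr.2] at hmem
      exact absurd hmem (Finset.notMem_empty a)) (by
      intro T hT hcl
      exact closed_holes C hY hη a haz T hT hcl)
    rw [hη] at this
    refine le_trans (le_of_eq ?_) this
    congr 2
    ext x
    simp only [Finset.mem_filter, hgood]
  have hsumb := Finset.sum_le_sum hb
  rw [Finset.sum_add_distrib, Finset.sum_const, smul_eq_mul] at hsumb
  -- the sum of all degrees
  have hdeg : ∑ a ∈ P, 2 * ∑ h ∈ H, (cn G Y h a).card ≤ 2 * (Δ * η) := by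
    rw [← Finset.mul_sum, Finset.sum_comm]
    apply Nat.mul_le_mul_left
    calc ∑ h ∈ H, ∑ a ∈ P, (cn G Y h a).card ≤ ∑ h ∈ H, Δ := by
          refine Finset.sum_le_sum fun h _ => ?_
          refine le_trans ?_ (C.deg h)
          have e1 : ∑ a ∈ P, (cn G Y h a).card = (P.biUnion (fun a => cn G Y h a)).card := by
            rw [Finset.card_biUnion]
            intro a _ b _ hab
            rw [Function.onFun, Finset.disjoint_left]
            intro x hx hx'
            exact hab ((kcn_mem.mp hx).2.symm.trans (kcn_mem.mp hx').2)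
          rw [e1]
          apply Finset.card_le_card
          intro x hx
          obtain ⟨a, -, hxa⟩ := Finset.mem_biUnion.mp hx
          rw [nb, Finset.mem_filter]
          exact ⟨Finset.mem_univ _, (kcn_mem.mp hxa).1⟩
      _ = Δ * η := by rw [Finset.sum_const, smul_eq_mul, hη, mul_comm]
  -- good and bad
  have hpart : ∑ a ∈ P, (H.filter (fun h => good a h)).card +
      ∑ a ∈ P, (H.filter (fun h => ¬ good a h)).card = P.card * η := by
    rw [← Finset.sum_add_distrib]
    have : ∀ a ∈ P, (H.filter (fun h => good a h)).card +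
        (H.filter (fun h => ¬ good a h)).card = η := by
      intro a _
      rw [Finset.card_filter_add_card_filter_not, hη]
    rw [Finset.sum_congr rfl this, Finset.sum_const, smul_eq_mul]
  -- good pairs give chains with two vertices
  have hswap : ∑ a ∈ P, (H.filter (fun h => good a h)).card =
      ∑ h ∈ H, (P.filter (fun a => good a h)).card := by
    simp only [Finset.card_filter]
    exact Finset.sum_comm
  have hk2 : ∀ h ∈ H, (P.filter (fun a => good a h)).card ≤
      ((nb G h).filter (fun u => K2 G Y h u)).card := by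
    intro h hh
    have hhz : Y h = z := hrig_mem_holes.mp hh
    refine le_trans (Finset.card_le_card ?_)
      (Finset.card_image_le (s := (nb G h).filter (fun u => K2 G Y h u)) (f := Y))
    intro a ha
    rw [Finset.mem_filter] at ha
    obtain ⟨-, hc1, hsh⟩ := ha
    obtain ⟨u, hu⟩ := Finset.card_eq_one.mp hc1
    have huc : u ∈ cn G Y h a := by rw [hu]; exact Finset.mem_singleton_self u
    obtain ⟨hadj, hYu⟩ := kcn_mem.mp huc
    rw [Finset.mem_image]
    refine ⟨u, ?_, hYu⟩
    rw [Finset.mem_filter, nb, Finset.mem_filter]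
    refine ⟨⟨Finset.mem_univ _, hadj⟩, hadj, by rw [hYu]; exact hu, ?_⟩
    rw [hhz]
    apply Finset.eq_singleton_iff_unique_mem.mpr
    refine ⟨kcn_mem.mpr ⟨hadj.symm, hhz⟩, ?_⟩
    intro h' hh'
    obtain ⟨hadj', hz'⟩ := kcn_mem.mp hh'
    exact hsh h' (hrig_mem_holes.mpr hz') ⟨u, huc, kcn_mem.mpr ⟨hadj'.symm, hYu⟩⟩
  have hle := Finset.sum_le_sum hk2
  have e1 : Δ * η = P.card * η + s * η := by rw [← hPc, Nat.add_mul]
  have e2 : P.card * (2 * η) = 2 * (P.card * η) := by ring
  have e3 : 3 * s * η = 3 * (s * η) := by ring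
  rw [e2] at hsumb
  rw [e3]
  omega

end Pool.Agent.KMA
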