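import Pool.Agent.KMA.CNTA
import Pool.Agent.KMA.HRIG
import Pool.Agent.KMA.SWL
import Pool.Agent.KMA.KCN

/-! FLO: each colouring of the class has many moves of holes which stay in the class. -/

set_option autoImplicit false

namespace Pool.Agent.KMA

open Finset Pool.Agent.KMP
open scoped Classical

variable {V K : Type} [Fintype V] [Fintype K]

/-- Proof. For such `u` (`u ∈ R` by `uniq_rig`, `h ∈ R` by `hole_rig`) `swap_lemma` gives `w ∉ R` with
`G.Adj h w`, `free Y w = {Y u}` (the second alternative is impossible since `z` is never free). `w ∉ out G z Y h`,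
otherwise `w ∈ R` by `uniq_rig`. The map `u ↦ w` is injective (`free Y w` gives `Y u`, and `cn G Y h (Y u) = {u}`).
`rig_hole` bounds `nb G h \ out G z Y h`. -/
theorem kill_count {G : SimpleGraph V} {z : K} {Δ s η : ℕ} {R : Finset V} {X : V → K}
    (C : Ctx G z Δ s η R X) {Y : V → K} (hY : Y ∈ SS G z η R X) {h : V} (hh : Y h = z) :
    ((nb G h).filter (fun u => K2 G Y h u ∧ ex Y h u ∉ SS G z η R X)).card ≤ 2 * s := by
  have hYm := hY
  simp only [SS, Finset.mem_filter, Finset.mem_univ, true_and] at hYm
  obtain ⟨hKE, hη, hR⟩ := hYm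
  have hhR : h ∈ R := by
    have hm : h ∈ holes z Y := by simp [holes, hh]
    have := hole_rig C hKE hη hm
    rwa [hR] at this
  have huR : ∀ u, G.Adj h u → cn G Y h (Y u) = {u} → u ∈ R := by
    intro u hu h1
    have := uniq_rig C hKE hη hh hu h1
    rwa [hR] at this
  have hex : ∀ u, ∃ w, (u ∈ (nb G h).filter (fun u => K2 G Y h u ∧ ex Y h u ∉ SS G z η R X)) →
      w ∉ R ∧ G.Adj h w ∧ free G z Y w = {Y u} := by
    intro u
    by_cases hu : u ∈ (nb G h).filter (fun u => K2 G Y h u ∧ ex Y h u ∉ SS G z η R X)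
    · simp only [Finset.mem_filter, nb, Finset.mem_univ, true_and] at hu
      obtain ⟨hadj, hK2, hn⟩ := hu
      obtain ⟨w, hw, hcase⟩ := swap_lemma C hY hhR (huR u hadj hK2.2.1) hK2 hn
      refine ⟨w, fun _ => ⟨hw, ?_⟩⟩
      rcases hcase with hc | hc
      · exact hc
      · exfalso
        have : Y h ∈ free G z Y w := by rw [hc.2]; simp
        simp only [free, Finset.mem_filter] at this
        exact this.2.1 hh
    · exact ⟨u, fun h => absurd h hu⟩
  choose f hf using hex
  have hhr : h ∈ rig G z Y := by rw [hR]; exact hhR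
  refine le_trans ?_ (rig_hole C.deg C.cK hh hhr).2
  apply Finset.card_le_card_of_injOn f
  · intro u hu
    have hu' := hf u (by simpa using hu)
    simp only [Finset.coe_sdiff, Set.mem_diff, Finset.mem_coe]
    refine ⟨by simp [nb, hu'.2.1], fun hout => hu'.1 ?_⟩
    simp only [out, Finset.mem_filter] at hout
    exact huR _ hu'.2.1 hout.2.2
  · intro u hu u' hu' he
    have h1 := hf u (by simpa using hu)
    have h2 := hf u' (by simpa using hu')
    rw [he] at h1
    have h3 : ({Y u} : Finset K) = {Y u'} := by rw [← h1.2.2, h2.2.2]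
    have h4 : Y u = Y u' := Finset.singleton_injective h3
    have hu1 : K2 G Y h u := by
      have : u ∈ (nb G h).filter (fun u => K2 G Y h u ∧ ex Y h u ∉ SS G z η R X) := by simpa using hu
      simp only [Finset.mem_filter] at this
      exact this.2.1
    have hu2 : K2 G Y h u' := by
      have : u' ∈ (nb G h).filter (fun u => K2 G Y h u ∧ ex Y h u ∉ SS G z η R X) := by simpa using hu'
      simp only [Finset.mem_filter] at this
      exact this.2.1
    have h5 := hu1.2.1
    rw [h4, hu2.2.1] at h5
    exact (Finset.singleton_injective h5).symm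

/-- Proof. `k2_count` and `kill_count`. -/
theorem flow {G : SimpleGraph V} {z : K} {Δ s η : ℕ} {R : Finset V} {X : V → K}
    (C : Ctx G z Δ s η R X) {Y : V → K} (hY : Y ∈ SS G z η R X) :
    Δ * (holes z Y).card ≤ ∑ h ∈ holes z Y, ((nb G h).filter (fun u => ex Y h u ∈ SS G z η R X)).card
      + 5 * s * (holes z Y).card := by
  have hYm := hY
  simp only [SS, Finset.mem_filter, Finset.mem_univ, true_and] at hYm
  obtain ⟨hKE, hη, hR⟩ := hYm
  have h1 := k2_count C hKE hη
  have h2 : ∑ h ∈ holes z Y, ((nb G h).filter (fun u => K2 G Y h u)).card ≤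
      ∑ h ∈ holes z Y, (((nb G h).filter (fun u => ex Y h u ∈ SS G z η R X)).card + 2 * s) := by
    refine Finset.sum_le_sum fun h hh => ?_
    have hhz : Y h = z := by simpa [holes] using hh
    have h3 := kill_count C hY hhz
    have h4 : (nb G h).filter (fun u => K2 G Y h u) ⊆
        (nb G h).filter (fun u => ex Y h u ∈ SS G z η R X) ∪
        (nb G h).filter (fun u => K2 G Y h u ∧ ex Y h u ∉ SS G z η R X) := by
      intro u hu
      simp only [Finset.mem_filter, Finset.mem_union] at hu ⊢
      by_cases hc : ex Y h u ∈ SS G z η R X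
      · exact Or.inl ⟨hu.1, hc⟩
      · exact Or.inr ⟨hu.1, hu.2, hc⟩
    have h5 := (Finset.card_le_card h4).trans (Finset.card_union_le _ _)
    omega
  rw [Finset.sum_add_distrib, Finset.sum_const, smul_eq_mul, hη] at h2
  rw [hη]
  have h6 : 5 * s * η = 3 * s * η + η * (2 * s) := by ring
  omega

end Pool.Agent.KMA
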