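import Pool.Agent.KMA.FLO
import Pool.Agent.KMA.COA
import Pool.Agent.KMA.CLB

/-! HPR: a colour can be eliminated by Kempe changes. -/

set_option autoImplicit false

namespace Pool.Agent.KMA

open Finset Pool.Agent.KMP
open scoped Classical

variable {V K : Type} [Fintype V] [Fintype K]

theorem hpr_num {Δ s b b0 : ℕ} (hΔ : 24 * s + 5 ≤ Δ)
    (h : Δ * b ≤ s * b + 5 * s * (b + b0) + (s + 1) * b0) : 3 * b ≤ b0 := by
  by_contra hlt
  push Not at hlt
  have h1 : (24 * s + 5) * b ≤ Δ * b := Nat.mul_le_mul_right _ hΔ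
  have h2 : (6 * s + 1) * b0 ≤ (6 * s + 1) * (3 * b) := Nat.mul_le_mul_left _ hlt.le
  have hb : 1 ≤ b := by omega
  nlinarith

/-- Proof. `flow`, `coarea` with `S = SS`, `t = 5 s` give `B`, `B ⊆ R` by `hole_rig`. Fix `Y ∈ SS`, `B₀ = B \ holes`,
`b = (B ∩ holes).card`, `b₀ = B₀.card`. `size_B`: `(Δ - 6s) b ≤ (6s+1) b₀`; as `Δ ≥ 24 s + 5` (a one point set
is a clique) `3 b ≤ b₀`. `M₀ p = {p' ∈ B₀ | K2 p p', ex Y p p' ∈ SS}`: `mutual_count`, `bad_count` give
`∑ (M₀ p).card ≥ (Δ-4s-4) b₀ - 15 s (b + b₀) ≥ (Δ - 24s - 4) b₀`. Some `p` has `(M₀ p).card + 24 s + 4 ≥ Δ`, and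
`insert p (M₀ p)` is a clique by `swap_adj` (for `p', p'' ∈ M₀ p`, `w = p''`). -/
theorem no_ctx {G : SimpleGraph V} {z : K} {Δ s η : ℕ} {R : Finset V} {X : V → K}
    (C : Ctx G z Δ s η R X) (hη : 1 ≤ η) (hS : (SS G z η R X).Nonempty)
    (hcl : ∀ Q : Finset V, (∀ x ∈ Q, ∀ y ∈ Q, x ≠ y → G.Adj x y) → Q.card + 24 * s + 4 ≤ Δ) :
    False := by
  have hpos : ∀ Y ∈ SS G z η R X, (holes z Y).Nonempty := by
    intro Y hY
    rw [← Finset.card_pos, (swl_mem_SS.1 hY).2.1]
    exact hη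
  obtain ⟨B, hBne, hBp, hBcl⟩ := coarea G z (SS G z η R X) hS Δ (5 * s) C.deg hpos
    (fun Y hY => flow C hY)
  have hBR : B ⊆ R := by
    intro p hp
    obtain ⟨Y, hY, hYp⟩ := hBp p hp
    obtain ⟨h1, h2, h3⟩ := swl_mem_SS.1 hY
    have := hole_rig C h1 h2 (clb_mem_holes.2 hYp)
    rwa [h3] at this
  obtain ⟨Y, hY⟩ := hS
  have hsz := size_B C hY hBR hBcl
  have hmu := mutual_count C hY hBR hBcl
  have hba := bad_count C hY hBR hBcl
  have hcard : B.card = (B ∩ holes z Y).card + (B \ holes z Y).card :=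
    (Finset.card_inter_add_card_sdiff B (holes z Y)).symm
  set b := (B ∩ holes z Y).card with hb
  set b0 := (B \ holes z Y).card with hb0
  rw [hcard] at hsz hmu hba
  obtain ⟨p0, hp0⟩ := hBne
  have hΔ : 24 * s + 5 ≤ Δ := by
    have := hcl {p0} (by
      intro x hx y hy hxy
      rw [mem_singleton] at hx hy
      exact absurd (hx.trans hy.symm) hxy)
    rw [card_singleton] at this
    omega
  have h3b := hpr_num hΔ hsz
  have hBpos : 0 < B.card := Finset.card_pos.2 ⟨p0, hp0⟩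
  have hb0pos : 0 < b0 := by omega
  set M0 : V → Finset V := fun p => (B \ holes z Y).filter
    (fun p' => K2 G Y p p' ∧ ex Y p p' ∈ SS G z η R X) with hM0
  have hsplit : ∑ p ∈ B \ holes z Y, ((B \ holes z Y).filter (fun p' => K2 G Y p p')).card =
      ∑ p ∈ B \ holes z Y, (M0 p).card + ∑ p ∈ B \ holes z Y, ((B \ holes z Y).filter
      (fun p' => K2 G Y p p' ∧ ex Y p p' ∉ SS G z η R X)).card := by
    rw [← Finset.sum_add_distrib]
    apply Finset.sum_congr rfl
    intro p _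
    rw [← Finset.card_filter_add_card_filter_not
      (s := (B \ holes z Y).filter (fun p' => K2 G Y p p'))
      (p := fun p' => ex Y p p' ∈ SS G z η R X), Finset.filter_filter, Finset.filter_filter]
  have hkey : Δ * b0 ≤ ∑ p ∈ B \ holes z Y, (M0 p).card + (24 * s + 4) * b0 := by
    rw [hsplit] at hmu
    have h4 : 20 * s * (3 * b) ≤ 20 * s * b0 := Nat.mul_le_mul_left _ h3b
    nlinarith
  obtain ⟨p, hp, hpM⟩ : ∃ p ∈ B \ holes z Y, Δ ≤ (M0 p).card + (24 * s + 4) := by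
    by_contra hno
    push Not at hno
    have : ∑ p ∈ B \ holes z Y, ((M0 p).card + (24 * s + 4)) < ∑ p ∈ B \ holes z Y, Δ :=
      Finset.sum_lt_sum_of_nonempty (Finset.card_pos.1 hb0pos) hno
    rw [Finset.sum_add_distrib, Finset.sum_const, Finset.sum_const, smul_eq_mul, smul_eq_mul] at this
    nlinarith
  have hpn : p ∉ M0 p := by
    rw [hM0]
    simp only [mem_filter, not_and]
    intro _ hk
    exact absurd hk.1 (G.loopless.irrefl p)
  have hpz : Y p ≠ z := fun h => (mem_sdiff.1 hp).2 (clb_mem_holes.2 h)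
  have hq := hcl (insert p (M0 p)) (by
    intro x hx y hy hxy
    rw [mem_insert] at hx hy
    rcases hx with rfl | hx
    · rcases hy with rfl | hy
      · exact absurd rfl hxy
      · exact (mem_filter.1 hy).2.1.1
    · rcases hy with rfl | hy
      · exact (mem_filter.1 hx).2.1.1.symm
      · have hx' := (mem_filter.1 hx).2
        have hy' := (mem_filter.1 hy).2
        exact swap_adj C hY hpz hx'.1 hx'.2 (hBR (mem_sdiff.1 (mem_filter.1 hy).1).1)
          (Ne.symm hxy) hy'.1.2.2)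
  rw [card_insert_of_notMem hpn] at hq
  omega

/-- Proof. Take the colouring of the Kempe class of `X` with the fewest holes, and among those one with the fewest
rigid vertices (`Nat.find`, or `exists_min_image` twice). If there are no holes, done; otherwise `no_ctx`. -/
theorem eliminate {G : SimpleGraph V} (z : K) {Δ s : ℕ} (deg : ∀ x, (nb G x).card ≤ Δ)
    (cK : Fintype.card K + s = Δ + 1)
    (hcl : ∀ Q : Finset V, (∀ x ∈ Q, ∀ y ∈ Q, x ≠ y → G.Adj x y) → Q.card + 24 * s + 4 ≤ Δ)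
    {X : V → K} (hX : Proper G X) :
    ∃ Y, KE G X Y ∧ Proper G Y ∧ ∀ x, Y x ≠ z := by
  obtain ⟨Y0, hY0, hmin⟩ := Finset.exists_min_image (univ.filter (fun Y : V → K => KE G X Y))
    (fun Y => (holes z Y).card) ⟨X, by simp [KE, Relation.ReflTransGen.refl]⟩
  rw [mem_filter] at hY0
  by_cases hη : (holes z Y0).card = 0
  · refine ⟨Y0, hY0.2, ke_proper hY0.2 hX, ?_⟩
    intro x hx
    have : x ∈ holes z Y0 := clb_mem_holes.2 hx
    rw [Finset.card_eq_zero.1 hη] at this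
    simp at this
  · exfalso
    obtain ⟨Y1, hY1, hmin1⟩ := Finset.exists_min_image
      (univ.filter (fun Y : V → K => KE G X Y ∧ (holes z Y).card = (holes z Y0).card))
      (fun Y => (rig G z Y).card) ⟨Y0, by simp [hY0.2]⟩
    rw [mem_filter] at hY1
    refine no_ctx (G := G) (z := z) (Δ := Δ) (s := s) (η := (holes z Y0).card)
      (R := rig G z Y1) (X := X) ⟨hX, deg, cK, ?_, ?_⟩ (Nat.one_le_iff_ne_zero.2 hη) ?_ hcl
    · intro Y hY
      exact hmin Y (mem_filter.2 ⟨mem_univ _, hY⟩)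
    · intro Y hY hη'
      exact hmin1 Y (mem_filter.2 ⟨mem_univ _, hY, hη'⟩)
    · exact ⟨Y1, swl_mem_SS.2 ⟨hY1.2.1, hY1.2.2, rfl⟩⟩

end Pool.Agent.KMA
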